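import Mathlib

/-!
# Isolated fractions
-/

set_option autoImplicit false

namespace Pool.Agent.E8helper53.PR

open Finset

lemma card_le_sub_two {S : Finset ℕ} {a : ℕ} (h2 : ∀ x ∈ S, 2 ≤ x) (ha : ∀ x ∈ S, x < a) : S.card + 2 ≤ a ∨ S = ∅ := by
  by_cases hS : S = ∅
  · exact Or.inr hS
  · left
    obtain ⟨x, hx⟩ := Finset.nonempty_iff_ne_empty.2 hS
    have h1 : S ⊆ Finset.Ico 2 a := fun y hy => Finset.mem_Ico.2 ⟨h2 y hy, ha y hy⟩
    have h3 := card_le_card h1
    rw [Nat.card_Ico] at h3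
    have := h2 x hx
    have := ha x hx
    omega

lemma prod_lower (S : Finset ℕ) (hS : ∀ x ∈ S, 2 ≤ x) :
    1 / ((S.card : ℚ) + 1) ≤ ∏ x ∈ S, (1 - (x : ℚ)⁻¹) := by
  induction S using Finset.induction_on_max with
  | empty => simp
  | insert a s hlt ih =>
    have ha : a ∉ s := fun h => lt_irrefl a (hlt a h)
    have h2s : ∀ x ∈ s, 2 ≤ x := fun x hx => hS x (mem_insert_of_mem hx)
    have ha2 : 2 ≤ a := hS a (mem_insert_self a s)
    have ih' := ih h2s
    rw [Finset.prod_insert ha, card_insert_of_notMem ha]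
    have hac : s.card + 2 ≤ a := by
      rcases card_le_sub_two h2s hlt with h | h
      · exact h
      · rw [h, card_empty]
        omega
    have hac' : (s.card : ℚ) + 2 ≤ a := by exact_mod_cast hac
    have hc0 : (0 : ℚ) ≤ s.card := Nat.cast_nonneg _
    have h1 : ((s.card : ℚ) + 1) / (s.card + 2) ≤ 1 - (a : ℚ)⁻¹ := by
      have h3 : (a : ℚ)⁻¹ ≤ ((s.card : ℚ) + 2)⁻¹ := inv_anti₀ (by linarith) hac'
      have h4 : ((s.card : ℚ) + 1) / (s.card + 2) = 1 - ((s.card : ℚ) + 2)⁻¹ := by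
        field_simp
        ring
      rw [h4]
      linarith
    calc 1 / (((s.card + 1 : ℕ) : ℚ) + 1) = ((s.card : ℚ) + 1) / (s.card + 2) * (1 / ((s.card : ℚ) + 1)) := by
          push_cast
          field_simp
          ring
      _ ≤ (1 - (a : ℚ)⁻¹) * ∏ x ∈ s, (1 - (x : ℚ)⁻¹) := by
          apply mul_le_mul h1 ih' (by positivity)
          have : (0 : ℚ) ≤ ((s.card : ℚ) + 1) / (s.card + 2) := by positivity
          linarith

lemma card_primeFactors_le (n : ℕ) (hn : n ≠ 0) : n.primeFactors.card ≤ Nat.log 2 n := by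
  have h1 : 2 ^ n.primeFactors.card ≤ ∏ x ∈ n.primeFactors, x :=
    Finset.pow_card_le_prod _ _ _ fun x hx => (Nat.prime_of_mem_primeFactors hx).two_le
  have h2 : ∏ x ∈ n.primeFactors, x ≤ n := Nat.le_of_dvd (Nat.pos_of_ne_zero hn) (Nat.prod_primeFactors_dvd n)
  exact Nat.le_log_of_pow_le (by norm_num) (h1.trans h2)

lemma totient_lower (n : ℕ) (hn : n ≠ 0) : n ≤ n.totient * (Nat.log 2 n + 1) := by
  have h1 := prod_lower n.primeFactors fun x hx => (Nat.prime_of_mem_primeFactors hx).two_le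
  have h2 := Nat.totient_eq_mul_prod_factors n
  have h3 := card_primeFactors_le n hn
  have h3' : (n.primeFactors.card : ℚ) ≤ Nat.log 2 n := by exact_mod_cast h3
  have hn0 : (0 : ℚ) < n := by exact_mod_cast Nat.pos_of_ne_zero hn
  have hc0 : (0 : ℚ) ≤ n.primeFactors.card := Nat.cast_nonneg _
  have h4 : (n : ℚ) / (Nat.log 2 n + 1) ≤ n.totient := by
    rw [h2]
    calc (n : ℚ) / (Nat.log 2 n + 1) ≤ (n : ℚ) / (n.primeFactors.card + 1) := by
          apply div_le_div_of_nonneg_left hn0.le (by linarith) (by linarith)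
      _ = n * (1 / ((n.primeFactors.card : ℚ) + 1)) := by ring
      _ ≤ _ := by
          apply mul_le_mul_of_nonneg_left h1 hn0.le
  have h5 : (0 : ℚ) < (Nat.log 2 n : ℚ) + 1 := by positivity
  rw [div_le_iff₀ h5] at h4
  exact_mod_cast h4

/-- the numbers `j` for which a multiple of `us` is close to, but different from, `j u` -/
noncomputable def Bad (us E u : ℕ) : Finset ℕ :=
  by
    classical
    exact (range us).filter (fun j => ∃ k : ℤ, k * us - j * u ≠ 0 ∧ |k * (us : ℤ) - j * u| ≤ E)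

lemma mem_Bad {us E u j : ℕ} : j ∈ Bad us E u ↔ j < us ∧ ∃ k : ℤ, k * us - j * u ≠ 0 ∧ |k * (us : ℤ) - j * u| ≤ E := by
  classical
  unfold Bad
  rw [mem_filter, mem_range]

lemma card_Bad {us E u : ℕ} (hus : 0 < us) : (Bad us E u).card ≤ 2 * E := by
  classical
  set g := Nat.gcd us u with hg
  have hg0 : 0 < g := Nat.gcd_pos_of_pos_left _ hus
  obtain ⟨u₂, hu₂⟩ := Nat.gcd_dvd_left us u
  obtain ⟨u₁, hu₁⟩ := Nat.gcd_dvd_right us u
  rw [← hg] at hu₂ hu₁
  have hcop : u₂.Coprime u₁ := by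
    have := Nat.coprime_div_gcd_div_gcd (m := us) (n := u) hg0
    rw [← hg] at this
    rwa [show us / g = u₂ by conv_lhs => rw [hu₂, Nat.mul_div_cancel_left _ hg0],
      show u / g = u₁ by conv_lhs => rw [hu₁, Nat.mul_div_cancel_left _ hg0]] at this
  have hu₂0 : 0 < u₂ := by
    rcases Nat.eq_zero_or_pos u₂ with h | h
    · rw [h, mul_zero] at hu₂
      omega
    · exact h
  have hch : ∀ j ∈ Bad us E u, ∃ k : ℤ, k * us - j * u ≠ 0 ∧ |k * (us : ℤ) - j * u| ≤ E := fun j hj =>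
    (mem_Bad.1 hj).2
  choose! κ hκ0 hκ using hch
  set F : ℤ := ((E / g : ℕ) : ℤ) with hF
  set T : Finset (ℤ × ℕ) := ((Finset.Icc (-F) F).erase 0) ×ˢ range g with hT
  have hTc : T.card = 2 * (E / g) * g := by
    have hF0 : 0 ≤ F := Int.natCast_nonneg _
    rw [hT, card_product, card_range, card_erase_of_mem (Finset.mem_Icc.2 ⟨by omega, hF0⟩), Int.card_Icc]
    congr 1
    rw [hF]
    omega
  have hval : ∀ j ∈ Bad us E u, κ j * us - j * u = (g : ℤ) * (κ j * u₂ - j * u₁) := by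
    intro j _
    rw [show (us : ℤ) = g * u₂ by exact_mod_cast hu₂, show (u : ℤ) = g * u₁ by exact_mod_cast hu₁]
    ring
  have hmap : ∀ j ∈ Bad us E u, (κ j * u₂ - j * u₁, j / u₂) ∈ T := by
    intro j hj
    have h1 := hκ0 j hj
    have h2 := hκ j hj
    have h3 := (mem_Bad.1 hj).1
    rw [hval j hj] at h1 h2
    rw [hT, mem_product, mem_erase, Finset.mem_Icc, mem_range]
    have h4 : |κ j * (u₂ : ℤ) - j * u₁| ≤ F := by
      rw [abs_mul, Nat.abs_cast] at h2
      rw [hF]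
      have h5 : |κ j * (u₂ : ℤ) - j * u₁| = ((κ j * (u₂ : ℤ) - j * u₁).natAbs : ℤ) := (Int.natCast_natAbs _).symm
      rw [h5] at h2 ⊢
      have h6 : g * (κ j * (u₂ : ℤ) - j * u₁).natAbs ≤ E := by exact_mod_cast h2
      have h7 : (κ j * (u₂ : ℤ) - j * u₁).natAbs ≤ E / g := by
        rw [Nat.le_div_iff_mul_le hg0, mul_comm]
        exact h6
      exact_mod_cast h7
    refine ⟨⟨right_ne_zero_of_mul h1, (abs_le.1 h4).1, (abs_le.1 h4).2⟩, ?_⟩
    rw [Nat.div_lt_iff_lt_mul hu₂0, ← hu₂]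
    exact h3
  have hinj : Set.InjOn (fun j : ℕ => (κ j * (u₂ : ℤ) - j * u₁, j / u₂)) (Bad us E u) := by
    intro j hj j' hj' h
    rw [Prod.mk.injEq] at h
    obtain ⟨h1, h2⟩ := h
    have h3 : (u₂ : ℤ) ∣ (j - j') * u₁ := ⟨κ j - κ j', by linear_combination (-1 : ℤ) * h1⟩
    have h4 : (u₂ : ℤ) ∣ (j : ℤ) - j' := by
      refine IsCoprime.dvd_of_dvd_mul_right ?_ h3
      exact_mod_cast Nat.isCoprime_iff_coprime.2 hcop
    have h5 : j' % u₂ = j % u₂ := by
      have h6 : (j' : ℤ) ≡ j [ZMOD u₂] := Int.modEq_iff_dvd.2 h4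
      exact (Int.natCast_modEq_iff.1 h6)
    rw [← Nat.mod_add_div j u₂, ← Nat.mod_add_div j' u₂, h2, h5]
  have h1 := Finset.card_le_card_of_injOn _ hmap hinj
  rw [hTc] at h1
  refine h1.trans ?_
  rw [mul_assoc]
  exact Nat.mul_le_mul_left _ (Nat.div_mul_le_self E g)

/-- an isolated fraction -/
lemma exists_j {ι : Type*} [DecidableEq ι] (I : Finset ι) (u : ι → ℕ) {i₀ : ι} (hi₀ : i₀ ∈ I) {E : ℕ} (h0 : 0 < u i₀)
    (hE : 2 * E * (I.card - 1) < (u i₀).totient) :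
    ∃ j < u i₀, j.Coprime (u i₀) ∧ ∀ i ∈ I, i ≠ i₀ → ∀ k : ℤ, k * (u i₀) - j * (u i) ≠ 0 →
      (E : ℤ) < |k * (u i₀ : ℤ) - j * u i| := by
  by_contra hcon
  push Not at hcon
  have h1 : (range (u i₀)).filter (fun j => (u i₀).Coprime j) ⊆ (I.erase i₀).biUnion (fun i => Bad (u i₀) E (u i)) := by
    intro j hj
    rw [mem_filter, mem_range] at hj
    obtain ⟨i, hi, hne, k, hk0, hk⟩ := hcon j hj.1 hj.2.symm
    rw [mem_biUnion]
    exact ⟨i, mem_erase.2 ⟨hne, hi⟩, mem_Bad.2 ⟨hj.1, k, hk0, hk⟩⟩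
  have h2 := card_le_card h1
  have h3 : ((I.erase i₀).biUnion (fun i => Bad (u i₀) E (u i))).card ≤ (I.card - 1) * (2 * E) := by
    refine (card_biUnion_le_card_mul _ _ (2 * E) fun i _ => card_Bad h0).trans ?_
    rw [card_erase_of_mem hi₀]
  rw [← Nat.totient_eq_card_coprime] at h2
  have h4 : (I.card - 1) * (2 * E) = 2 * E * (I.card - 1) := by ring
  omega

end Pool.Agent.E8helper53.PR
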