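import Mathlib

/-!
# The characters of `(ℤ/q)^×` of order dividing `M`
-/

set_option autoImplicit false

namespace Pool.Agent.E8helper53.PR

open Finset

section
variable {q d M : ℕ} [Fact q.Prime]

/-- a `d`-th root of unity is an `M`-th power -/
lemma exists_root (hqd : q = M * d + 1) (hd0 : 0 < d) {a : ZMod q} (ha : a ^ d = 1) :
    ∃ y : ZMod q, y ≠ 0 ∧ y ^ M = a := by
  have ha0 : a ≠ 0 := by
    rintro rfl
    rw [zero_pow hd0.ne'] at ha
    exact zero_ne_one ha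
  obtain ⟨g, hg⟩ := IsCyclic.exists_generator (α := (ZMod q)ˣ)
  obtain ⟨i, hi⟩ := (Subgroup.mem_zpowers_iff).1 (hg (Units.mk0 a ha0))
  have hgo : orderOf g = M * d := by
    rw [orderOf_eq_card_of_forall_mem_zpowers hg, Nat.card_eq_fintype_card, ZMod.card_units]
    omega
  have h1 : (g ^ (i * (d : ℤ))) = 1 := by
    rw [zpow_mul, hi, zpow_natCast]
    ext
    rw [Units.val_pow_eq_pow_val, Units.val_mk0, ha, Units.val_one]
  have h2 : ((M * d : ℕ) : ℤ) ∣ i * d := by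
    rw [← hgo]
    exact orderOf_dvd_iff_zpow_eq_one.2 h1
  have h3 : (M : ℤ) ∣ i := by
    rw [Nat.cast_mul] at h2
    exact Int.dvd_of_mul_dvd_mul_right (by exact_mod_cast hd0.ne') h2
  obtain ⟨c, hc⟩ := h3
  refine ⟨((g ^ c : (ZMod q)ˣ) : ZMod q), Units.ne_zero _, ?_⟩
  have h4 : (g ^ c) ^ M = Units.mk0 a ha0 := by
    rw [← hi, hc, mul_comm, zpow_mul, zpow_natCast]
  rw [← Units.val_pow_eq_pow_val, h4, Units.val_mk0]

/-- the characters of order dividing `M` -/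
noncomputable def Lam (q M : ℕ) [Fact q.Prime] : Finset (DirichletCharacter ℂ q) :=
  (Set.toFinite {lam : DirichletCharacter ℂ q | lam ^ M = 1}).toFinset

lemma mem_Lam {lam : DirichletCharacter ℂ q} : lam ∈ Lam q M ↔ lam ^ M = 1 := by
  unfold Lam
  rw [Set.Finite.mem_toFinset]
  rfl

lemma pow_sub_one (hqd : q = M * d + 1) (χ : DirichletCharacter ℂ q) : (χ ^ d) ^ M = 1 := by
  apply MulChar.ext
  intro U
  rw [← pow_mul, MulChar.pow_apply_coe, MulChar.one_apply_coe, ← map_pow, mul_comm d M, ← Units.val_pow_eq_pow_val]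
  have h1 : U ^ (M * d) = 1 := by
    have h2 := ZMod.units_pow_card_sub_one_eq_one q U
    have h3 : q - 1 = M * d := by omega
    rwa [h3] at h2
  rw [h1, Units.val_one, map_one]

lemma exists_sep (hqd : q = M * d + 1) {a : ZMod q} (ha : a ^ d ≠ 1) :
    ∃ lam ∈ Lam q M, lam a ≠ 1 := by
  obtain ⟨χ, hχ⟩ := MulChar.exists_apply_ne_one_of_hasEnoughRootsOfUnity (ZMod q) ℂ ha
  rcases Nat.eq_zero_or_pos d with h0 | h0
  · rw [h0, pow_zero] at ha
    exact absurd rfl ha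
  refine ⟨χ ^ d, mem_Lam.2 (pow_sub_one hqd χ), ?_⟩
  rw [MulChar.pow_apply' χ h0.ne', ← map_pow]
  exact hχ

lemma Lam_apply (hqd : q = M * d + 1) (hd0 : 0 < d) {a : ZMod q} (ha : a ^ d = 1) {lam : DirichletCharacter ℂ q}
    (h : lam ^ M = 1) : lam a = 1 := by
  obtain ⟨y, hy, rfl⟩ := exists_root hqd hd0 ha
  have h1 : IsUnit y := isUnit_iff_ne_zero.2 hy
  obtain ⟨U, hU⟩ := h1
  rw [map_pow, ← hU, ← MulChar.pow_apply_coe, h, MulChar.one_apply_coe]

lemma orth (hqd : q = M * d + 1) (hd0 : 0 < d) (a : ZMod q) :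
    ∑ lam ∈ Lam q M, lam a = if a ^ d = 1 then ((Lam q M).card : ℂ) else 0 := by
  split_ifs with h
  · rw [sum_congr rfl (fun lam hlam => Lam_apply hqd hd0 h (mem_Lam.1 hlam)), sum_const, nsmul_eq_mul, mul_one]
  · obtain ⟨μ, hμ, hμa⟩ := exists_sep hqd h
    have h1 : ∑ lam ∈ Lam q M, lam a = ∑ lam ∈ Lam q M, μ a * lam a := by
      symm
      refine Finset.sum_bij' (fun lam _ => μ * lam) (fun lam _ => μ⁻¹ * lam) ?_ ?_ ?_ ?_ ?_
      · intro lam hlam
        rw [mem_Lam] at hlam hμ ⊢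
        rw [mul_pow, hμ, hlam, one_mul]
      · intro lam hlam
        rw [mem_Lam] at hlam hμ ⊢
        rw [mul_pow, inv_pow, hμ, hlam, inv_one, one_mul]
      · intro lam _
        exact inv_mul_cancel_left μ lam
      · intro lam _
        exact mul_inv_cancel_left μ lam
      · intro lam _
        rfl
    rw [← Finset.mul_sum] at h1
    have h2 : (μ a - 1) * ∑ lam ∈ Lam q M, lam a = 0 := by
      linear_combination -h1
    exact (mul_eq_zero.1 h2).resolve_left (sub_ne_zero.2 hμa)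

lemma card_Lam {p : ℕ} (hp : p.Prime) (hpM : ¬ p ∣ M) : ¬ p ∣ (Lam q M).card := by
  intro h
  have : Fact p.Prime := ⟨hp⟩
  set K : Subgroup (DirichletCharacter ℂ q) := (powMonoidHom M).ker with hK
  have h1 : Nat.card K = (Lam q M).card := by
    rw [Lam, ← Set.ncard_eq_toFinset_card]
    rfl
  rw [← h1] at h
  obtain ⟨x, hx⟩ := exists_prime_orderOf_dvd_card' p h
  have h2 : (x : DirichletCharacter ℂ q) ^ M = 1 := x.2
  have h3 : x ^ M = 1 := Subtype.ext h2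
  have h4 := orderOf_dvd_of_pow_eq_one h3
  rw [hx] at h4
  exact hpM h4

lemma exists_two (hqd : q = M * d + 1) (hM3 : 3 ≤ M) (lam₀ : DirichletCharacter ℂ q) :
    ∃ lam ∈ Lam q M, lam ≠ 1 ∧ lam ≠ lam₀ := by
  have hM0 : M ≠ 0 := by omega
  obtain ⟨χ, hχ⟩ := MulChar.exists_mulChar_orderOf (ZMod q) (n := M) (R := ℂ)
    (by rw [ZMod.card]; exact ⟨d, by omega⟩) (Complex.isPrimitiveRoot_exp M hM0)
  have hχM : χ ^ M = 1 := by
    rw [← hχ]
    exact pow_orderOf_eq_one χ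
  have hχ1 : χ ≠ 1 := by
    intro h
    rw [h, orderOf_one] at hχ
    omega
  by_cases h : χ = lam₀
  · refine ⟨χ ^ 2, mem_Lam.2 ?_, ?_, ?_⟩
    · rw [← pow_mul, mul_comm, pow_mul, hχM, one_pow]
    · intro h2
      have h3 := orderOf_dvd_of_pow_eq_one h2
      rw [hχ] at h3
      have := Nat.le_of_dvd (by norm_num) h3
      omega
    · intro h2
      rw [← h, pow_two] at h2
      exact hχ1 (mul_eq_left.1 h2)
  · exact ⟨χ, mem_Lam.2 hχM, hχ1, h⟩

lemma exists_sep' (hqd : q = M * d + 1) (hM3 : 3 ≤ M) (lam₀ : DirichletCharacter ℂ q) (hlam₀ : lam₀ ^ M = 1)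
    {a : ZMod q} (ha : a ^ d ≠ 1) : ∃ lam ∈ Lam q M, lam ≠ lam₀ ∧ lam a ≠ 1 := by
  obtain ⟨lam, hlam, hlama⟩ := exists_sep hqd ha
  by_cases h : lam = lam₀
  · obtain ⟨μ, hμ, hμ1, hμ0⟩ := exists_two hqd hM3 lam₀
    by_cases hμa : μ a = 1
    · refine ⟨μ * lam₀, ?_, ?_, ?_⟩
      · rw [mem_Lam] at hμ ⊢
        rw [mul_pow, hμ, hlam₀, one_mul]
      · intro h1
        exact hμ1 (mul_eq_right.1 h1)
      · rw [MulChar.mul_apply, hμa, one_mul, ← h]
        exact hlama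
    · exact ⟨μ, hμ, hμ0, hμa⟩
  · exact ⟨lam, hlam, h, hlama⟩

end

end Pool.Agent.E8helper53.PR
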