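import Pool.Agent.E8helper53.PR.Phi

/-!
# Constancy of the sums over the group of `d`-th roots of unity, from an identity between powers of characters
-/

set_option autoImplicit false

namespace Pool.Agent.E8helper53.PR

open Finset Polynomial Pool.Agent.Y18.GX Pool.Agent.E8helper53.GS

section
variable {k : Type*} [Field k] {p : ℕ} [Fact p.Prime] [CharP k p]

theorem phi_const2 {q d : ℕ} [Fact q.Prime] (hd0 : 0 < d) {ι : Type} (J : Finset ι) (j : ι → ℕ) (A : ℕ)
    (χ χ₀ : MulChar (ZMod q) k) (H : ZMod q → k) (hH : ∀ i ∈ J, ∀ x, H x ^ p ^ j i = H x)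
    (hid : ∀ x : ZMod q, x ≠ 0 → ∑ i ∈ J, χ x ^ p ^ j i = (if x ^ d = 1 then (A : k) * χ x else 0) - χ₀ x)
    (h0 : ∑ x : ZMod q, χ x * H x = 0) {η : ZMod q} (hη : η ≠ 0) :
    χ₀ η * ((A : k) * Phi χ (BB q d) H η) = ∑ x : ZMod q, χ₀ x * H x := by
  classical
  have hp := (Fact.out : p.Prime)
  have hj : ∀ i ∈ J, ∑ x : ZMod q, χ x ^ p ^ j i * H x = 0 := by
    intro i hi
    have e1 := congrArg (iterateFrobenius k p (j i)) h0
    rw [map_zero, map_sum] at e1
    rw [← e1]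
    refine sum_congr rfl fun x _ => ?_
    rw [iterateFrobenius_def, mul_pow, hH i hi]
  have hid' : ∀ x : ZMod q, ∑ i ∈ J, χ x ^ p ^ j i = (if x ^ d = 1 then (A : k) * χ x else 0) - χ₀ x := by
    intro x
    by_cases hx : x = 0
    · subst hx
      rw [zero_pow hd0.ne', if_neg zero_ne_one, MulChar.map_zero, MulChar.map_zero, sub_zero]
      refine sum_eq_zero fun i _ => ?_
      rw [zero_pow (pow_ne_zero _ hp.ne_zero)]
    · exact hid x hx
  have e1 : ∑ i ∈ J, χ η⁻¹ ^ p ^ j i * ∑ x : ZMod q, χ x ^ p ^ j i * H x = 0 :=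
    sum_eq_zero fun i hi => by rw [hj i hi, mul_zero]
  simp only [Finset.mul_sum] at e1
  rw [Finset.sum_comm] at e1
  have e2 : ∀ x : ZMod q, ∑ i ∈ J, χ η⁻¹ ^ p ^ j i * (χ x ^ p ^ j i * H x) =
      (if (η⁻¹ * x) ^ d = 1 then (A : k) * χ (η⁻¹ * x) * H x else 0) - χ₀ η⁻¹ * (χ₀ x * H x) := by
    intro x
    have f1 : ∀ i ∈ J, χ η⁻¹ ^ p ^ j i * (χ x ^ p ^ j i * H x) = χ (η⁻¹ * x) ^ p ^ j i * H x := by
      intro i _
      rw [map_mul, mul_pow]
      ring
    rw [sum_congr rfl f1, ← sum_mul, hid', map_mul χ₀]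
    split_ifs <;> ring
  rw [sum_congr rfl (fun x _ => e2 x), sum_sub_distrib, sub_eq_zero, ← Finset.mul_sum] at e1
  have e3 : ∑ x : ZMod q, (if (η⁻¹ * x) ^ d = 1 then (A : k) * χ (η⁻¹ * x) * H x else 0) =
      (A : k) * Phi χ (BB q d) H η := by
    rw [← Finset.sum_filter, Phi, Finset.mul_sum]
    refine Finset.sum_bij' (fun x _ => η⁻¹ * x) (fun v _ => η * v) ?_ ?_ ?_ ?_ ?_
    · intro x hx
      rw [mem_BB]
      exact (mem_filter.1 hx).2
    · intro v hv
      rw [mem_BB] at hv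
      rw [mem_filter]
      refine ⟨mem_univ _, ?_⟩
      rw [inv_mul_cancel_left₀ hη, hv]
    · intro x _
      exact mul_inv_cancel_left₀ hη x
    · intro v _
      exact inv_mul_cancel_left₀ hη v
    · intro x _
      rw [mul_inv_cancel_left₀ hη]
      ring
  rw [e3] at e1
  rw [e1, ← mul_assoc, ← map_mul, mul_inv_cancel₀ hη, map_one, one_mul]

end

end Pool.Agent.E8helper53.PR
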