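import Pool.Agent.E8helper53.PR.SignA
import Pool.Agent.E8helper53.PR.PhiA
import Pool.Agent.E8helper53.PR.Orth
import Pool.Agent.E8helper53.PR.Red3
import Pool.Agent.Y18.GX.Dec

/-!
# Characters whose twists by the characters of order dividing `M` are conjugate
-/

set_option autoImplicit false

namespace Pool.Agent.E8helper53.PR

open Finset Polynomial Pool.Agent.Y18.GX Pool.Agent.E8helper53.GR

theorem general_U {p : ℕ} (hp : p.Prime) (hp2 : p ≠ 2) {N₁ q d M m : ℕ} (hpN : ¬ p ∣ N₁) (hq : q.Prime)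
    (hqd : q = M * d + 1) (hd : Even d) (hpM : ¬ p ∣ M)
    (hlarge : (4 * p * d * N₁ * (Nat.log 2 (N₁ * q) + 1)) ^ (d / 2) < q) (hm1 : 1 ≤ m) (hmp : m < p)
    (ψ : DirichletCharacter ℂ (N₁ * q)) (hpar : ψ (-1) = (-1) ^ m) (lam₀ : DirichletCharacter ℂ q)
    (hconj : ∀ lam : DirichletCharacter ℂ q, lam ^ M = 1 → lam ≠ lam₀ →
      ∃ j : ℕ, ψ * DirichletCharacter.changeLevel (dvd_mul_left q N₁) lam = ψ ^ p ^ j) :
    Pool.Agent.Y18.GX.IsUnitAt p ((1 - ψ (p : ZMod (N₁ * q)) * (p : ℂ) ^ (m - 1)) *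
      (((N₁ * q : ℕ) : ℂ) ^ (m - 1) * ∑ a ∈ range (N₁ * q), ψ (a : ZMod (N₁ * q)) *
        (((Polynomial.bernoulli m).eval ((a : ℚ) / ((N₁ * q : ℕ) : ℚ)) : ℚ) : ℂ)) / m) := by
  classical
  have : Fact q.Prime := ⟨hq⟩
  have : Fact p.Prime := ⟨hp⟩
  have hp3 : 3 ≤ p := by
    have := hp.two_le
    omega
  have hq2 := hq.two_le
  have hN₁ : 0 < N₁ := by
    rcases Nat.eq_zero_or_pos N₁ with h | h
    · rw [h] at hpN
      exact absurd (dvd_zero p) hpN
    · exact h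
  have hd0 : 0 < d := by
    rcases Nat.eq_zero_or_pos d with h | h
    · rw [h, mul_zero] at hqd
      omega
    · exact h
  have hd2 : 2 ≤ d := by
    obtain ⟨c, hc⟩ := hd
    omega
  set b := 4 * p * d * N₁ * (Nat.log 2 (N₁ * q) + 1) with hb
  have hb4 : 4 * p * d * N₁ ≤ b := Nat.le_mul_of_pos_right _ (Nat.succ_pos _)
  have hb12 : 12 * d * N₁ ≤ b := by
    refine le_trans ?_ hb4
    exact Nat.mul_le_mul_right _ (Nat.mul_le_mul_right _ (by omega))
  have hdN : 0 < d * N₁ := Nat.mul_pos hd0 hN₁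
  have hbp : p + 1 < b := by
    refine lt_of_lt_of_le ?_ hb4
    calc p + 1 < 4 * p := by omega
      _ ≤ 4 * p * (d * N₁) := Nat.le_mul_of_pos_right _ hdN
      _ = 4 * p * d * N₁ := by ring
  have hbq : b < q := by
    refine lt_of_le_of_lt ?_ hlarge
    calc b = b ^ 1 := (pow_one b).symm
      _ ≤ b ^ (d / 2) := Nat.pow_le_pow_right (by omega) (by omega)
  have hM3 : 3 ≤ M := by
    by_contra hcon
    have h1 : M ≤ 2 := by omega
    have h2 : M * d ≤ 2 * d := Nat.mul_le_mul_right _ h1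
    have h3 : 12 * d ≤ 12 * d * N₁ := Nat.le_mul_of_pos_right _ hN₁
    omega
  have hNb : N₁ ≤ b := by
    have h1 : N₁ ≤ 12 * d * N₁ := Nat.le_mul_of_pos_left _ (by omega)
    omega
  have hpq : ¬ p ∣ q := by
    intro h
    have h1 := (Nat.prime_dvd_prime_iff_eq hp hq).1 h
    omega
  have hNq : N₁.Coprime q := by
    apply Nat.Coprime.symm
    refine (Nat.Prime.coprime_iff_not_dvd hq).2 fun h => ?_
    have := Nat.le_of_dvd hN₁ h
    omega
  have : NeZero N₁ := ⟨hN₁.ne'⟩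
  have hN0 : N₁ * q ≠ 0 := (Nat.mul_pos hN₁ hq.pos).ne'
  have : NeZero (N₁ * q) := ⟨hN0⟩
  set crt := ZMod.chineseRemainder hNq with hcrt
  set π := ZMod.castHom (dvd_mul_left q N₁) (ZMod q) with hπd
  have hπ : ∀ x, π x = (crt x).2 := by
    intro x
    have h1 : π = (RingHom.snd (ZMod N₁) (ZMod q)).comp (crt : ZMod (N₁ * q) →+* ZMod N₁ × ZMod q) :=
      RingHom.ext_zmod _ _
    rw [h1]
    rfl
  -- the exceptional character may be assumed to have order dividing `M`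
  obtain ⟨lam₁, hlam₁, hconj⟩ : ∃ lam₁ : DirichletCharacter ℂ q, lam₁ ^ M = 1 ∧
      ∀ lam : DirichletCharacter ℂ q, lam ^ M = 1 → lam ≠ lam₁ →
      ∃ j : ℕ, ψ * DirichletCharacter.changeLevel (dvd_mul_left q N₁) lam = ψ ^ p ^ j := by
    by_cases h : lam₀ ^ M = 1
    · exact ⟨lam₀, h, hconj⟩
    · refine ⟨1, one_pow _, fun lam hlam _ => hconj lam hlam ?_⟩
      rintro rfl
      exact h hlam
  set J := (Lam q M).erase lam₁ with hJ
  have hJ1 : ∀ lam ∈ J, lam ^ M = 1 := fun lam hlam => mem_Lam.1 (mem_of_mem_erase hlam)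
  have hJ2 : ∀ lam ∈ J, ∃ j : ℕ, ψ * DirichletCharacter.changeLevel (dvd_mul_left q N₁) lam = ψ ^ p ^ j :=
    fun lam hlam => hconj lam (hJ1 lam hlam) (ne_of_mem_erase hlam)
  choose! j hj using hJ2
  have hcl : ∀ (lam : DirichletCharacter ℂ q) (x : ZMod (N₁ * q)), IsUnit x →
      DirichletCharacter.changeLevel (dvd_mul_left q N₁) lam x = lam (π x) := by
    rintro lam x ⟨U, rfl⟩
    rw [DirichletCharacter.changeLevel_eq_cast_of_dvd]
    rfl
  have hpow : ∀ lam ∈ J, ∀ x, IsUnit x → ψ x ^ p ^ j lam = ψ x * lam (π x) := by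
    intro lam hlam x hx
    have h1 := hj lam hlam
    have h2 : ψ x ^ p ^ j lam = (ψ ^ p ^ j lam) x := by
      obtain ⟨U, rfl⟩ := hx
      rw [MulChar.pow_apply_coe]
    rw [h2, ← h1, MulChar.mul_apply, hcl lam x hx]
  have hψ0 : ∀ x, IsUnit x → ψ x ≠ 0 := fun x hx => (hx.map ψ).ne_zero
  have hψ1 : ψ ≠ 1 := by
    intro h
    obtain ⟨lam, hlam, hlam1, hlam2⟩ := exists_two hqd hM3 lam₁
    have h1 := hj lam (mem_erase.2 ⟨hlam2, hlam⟩)
    rw [h, one_mul, one_pow] at h1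
    exact hlam1 ((DirichletCharacter.changeLevel_eq_one_iff (dvd_mul_left q N₁)).1 h1)
  -- the prime `p`
  have hpu : ((p : ℕ) : ZMod q) ≠ 0 := by
    intro h
    rw [ZMod.natCast_eq_zero_iff] at h
    have h1 := (Nat.prime_dvd_prime_iff_eq hq hp).1 h
    omega
  have hpU : IsUnit ((p : ℕ) : ZMod (N₁ * q)) := by
    rw [ZMod.isUnit_iff_coprime]
    refine Nat.Coprime.mul_right ((Nat.Prime.coprime_iff_not_dvd hp).2 hpN) ((Nat.Prime.coprime_iff_not_dvd hp).2 hpq)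
  have hpd : ((p : ℕ) : ZMod q) ^ d ≠ 1 := by
    intro h
    have h1 : d = d / 2 + d / 2 := by
      obtain ⟨c, hc⟩ := hd
      omega
    have hlt : p ^ (d / 2) + 1 < q := by
      refine lt_of_le_of_lt ?_ hlarge
      have h2 : p ^ (d / 2) < b ^ (d / 2) := Nat.pow_lt_pow_left (by omega) (by omega)
      omega
    have h2 : (((p : ℕ) : ZMod q) ^ (d / 2)) * ((p : ℕ) : ZMod q) ^ (d / 2) = 1 := by
      rw [← pow_add, ← h1, h]
    rcases mul_self_eq_one_iff.1 h2 with h3 | h3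
    · have h4 : ((p ^ (d / 2) : ℕ) : ZMod q) = ((1 : ℕ) : ZMod q) := by
        push_cast
        exact h3
      rw [ZMod.natCast_eq_natCast_iff', Nat.mod_eq_of_lt (by omega), Nat.mod_eq_of_lt (by omega)] at h4
      have := Nat.one_lt_pow (show d / 2 ≠ 0 by omega) hp.one_lt
      omega
    · have h4 : ((p ^ (d / 2) + 1 : ℕ) : ZMod q) = 0 := by
        push_cast
        rw [h3]
        ring
      rw [ZMod.natCast_eq_zero_iff] at h4
      have := Nat.le_of_dvd (Nat.succ_pos _) h4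
      omega
  obtain ⟨μ, hμ, hμ1, hμp⟩ := exists_sep' hqd hM3 lam₁ hlam₁ hpd
  have hμJ : μ ∈ J := mem_erase.2 ⟨hμ1, hμ⟩
  obtain ⟨e, n', hn', hen⟩ := Nat.exists_eq_pow_mul_and_not_dvd
    (Nat.totient_pos.2 (Nat.mul_pos hN₁ hq.pos)).ne' p hp.ne_one
  have hpj : ∀ i, 1 ≤ p ^ i := fun i => Nat.one_le_pow _ _ hp.pos
  have hpow' : ∀ lam ∈ J, ∀ x, IsUnit x → ψ x ^ (p ^ j lam - 1) = lam (π x) := by
    intro lam hlam x hx
    have h1 := hpow lam hlam x hx
    have h2 : ψ x ^ p ^ j lam = ψ x * ψ x ^ (p ^ j lam - 1) := by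
      rw [← pow_succ', Nat.sub_add_cancel (hpj _)]
    rw [h2] at h1
    exact mul_left_cancel₀ (hψ0 x hx) h1
  refine unit_gen3 hp (N := N₁ * q) (m := m) ψ ?_ hpar hm1 hmp
    {z | z = (((p : ℕ) : ZMod (N₁ * q)) ^ (p ^ j μ - 1)) ^ p ^ e} ?_ ?_
    {z | ∃ lam ∈ J, ∃ x : ZMod N₁, IsUnit x ∧ z = crt.symm (x, 1) ^ (p ^ j lam - 1)} ?_
    (ψ * DirichletCharacter.changeLevel (dvd_mul_left q N₁) lam₁) J j (Lam q M).card {x | (π x) ^ d = 1} ?_ ?_
    (sum_char hN0 ψ hψ1)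
  · intro h
    rcases hp.dvd_mul.1 h with h | h
    · exact hpN h
    · exact hpq h
  · rintro z rfl
    refine ⟨n', hn', ?_⟩
    obtain ⟨V, hV⟩ := hpU
    rw [← pow_mul, ← hen, pow_right_comm, ← hV, ← Units.val_pow_eq_pow_val, ZMod.pow_totient,
      Units.val_one, one_pow]
  · rintro z rfl h
    rw [map_pow, map_pow, hpow' μ hμJ _ hpU] at h
    have h1 : π ((p : ℕ) : ZMod (N₁ * q)) = ((p : ℕ) : ZMod q) := map_natCast π p
    rw [h1] at h
    have h2 : μ ((p : ℕ) : ZMod q) ^ M = 1 := by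
      have h3 : IsUnit ((p : ℕ) : ZMod q) := isUnit_iff_ne_zero.2 hpu
      obtain ⟨V, hV⟩ := h3
      rw [← hV, ← MulChar.pow_apply_coe, mem_Lam.1 hμ, MulChar.one_apply_coe]
    have h3 := orderOf_dvd_of_pow_eq_one h
    have h4 := orderOf_dvd_of_pow_eq_one h2
    have h5 : (p ^ e).Coprime M := Nat.Coprime.pow_left _ ((Nat.Prime.coprime_iff_not_dvd hp).2 hpM)
    have h6 := Nat.dvd_gcd h3 h4
    rw [h5] at h6
    exact hμp (orderOf_eq_one_iff.1 (Nat.dvd_one.1 h6))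
  · rintro z ⟨lam, hlam, x, hx, rfl⟩
    have hu : IsUnit (crt.symm (x, 1)) := by
      have h1 : IsUnit ((x, 1) : ZMod N₁ × ZMod q) := Prod.isUnit_iff.2 ⟨hx, isUnit_one⟩
      exact h1.map crt.symm
    rw [map_pow, hpow' lam hlam _ hu, hπ, RingEquiv.apply_symm_apply]
    exact map_one lam
  · intro x hx
    rw [sum_congr rfl (fun lam hlam => hpow lam hlam x hx), ← Finset.mul_sum, hJ,
      Finset.sum_erase_eq_sub (mem_Lam.2 hlam₁), orth hqd hd0, MulChar.mul_apply, hcl lam₁ x hx]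
    by_cases hD : (π x) ^ d = 1
    · rw [if_pos hD, Set.indicator_of_mem (show x ∈ {x | (π x) ^ d = 1} from hD)]
      ring
    · rw [if_neg hD, Set.indicator_of_notMem (show x ∉ {x | (π x) ^ d = 1} from hD)]
      ring
  · intro k _ _ χ χ₀ hZ hZ₁ hid hpar'
    have hnk : ∀ n : ℕ, ¬ p ∣ n → ((n : ℕ) : k) ≠ 0 := fun n hn h =>
      hn ((CharP.cast_eq_zero_iff k p n).1 h)
    have e3 : ∀ lam ∈ J, ∀ x : ZMod N₁, cfst hNq χ x ^ p ^ j lam = cfst hNq χ x := by
      intro lam hlam x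
      by_cases hx : IsUnit x
      · have h1 := hZ₁ _ ⟨lam, hlam, x, hx, rfl⟩
        rw [map_pow] at h1
        have h2 : cfst hNq χ x = χ (crt.symm (x, 1)) := rfl
        conv_lhs => rw [h2, ← Nat.sub_add_cancel (hpj (j lam)), pow_succ, h1, one_mul]
        rfl
      · rw [MulChar.map_nonunit _ hx, zero_pow (by have := hpj (j lam); omega)]
    have e4 : cfst hNq χ (-1) * csnd hNq χ (-1) = (-1) ^ m := by
      rw [← cdec_neg, hpar']
    have e5 : ∀ x : ZMod q, x ≠ 0 → ∑ lam ∈ J, csnd hNq χ x ^ p ^ j lam =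
        (if x ^ d = 1 then ((Lam q M).card : k) * csnd hNq χ x else 0) - csnd hNq χ₀ x := by
      intro x hx
      have hu : IsUnit (crt.symm (1, x)) := by
        have h1 : IsUnit ((1, x) : ZMod N₁ × ZMod q) := Prod.isUnit_iff.2 ⟨isUnit_one, isUnit_iff_ne_zero.2 hx⟩
        exact h1.map crt.symm
      have h1 := hid _ hu
      have h2 : π (crt.symm (1, x)) = x := by
        rw [hπ, RingEquiv.apply_symm_apply]
      by_cases hD : x ^ d = 1
      · rw [Set.indicator_of_mem (show crt.symm (1, x) ∈ {x | (π x) ^ d = 1} by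
          rw [Set.mem_ofPred_eq, h2]; exact hD)] at h1
        rw [if_pos hD]
        exact h1
      · rw [Set.indicator_of_notMem (show crt.symm (1, x) ∉ {x | (π x) ^ d = 1} by
          rw [Set.mem_ofPred_eq, h2]; exact hD)] at h1
        rw [if_neg hD]
        exact h1
    have hA : (((Lam q M).card : ℕ) : k) ≠ 0 := hnk _ (card_Lam hp hpM)
    have h2q : (2 : ZMod q) ≠ 0 := by
      intro h
      have e1 : ((2 : ℕ) : ZMod q) = 0 := by exact_mod_cast h
      rw [ZMod.natCast_eq_zero_iff] at e1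
      have := Nat.le_of_dvd (by norm_num) e1
      omega
    constructor
    · intro hcon
      simp only [cdec_nat hNq χ] at hcon
      rw [← HH_sum] at hcon
      have hC : ∀ x : ZMod q, x ≠ 0 → (csnd hNq χ₀ x * ((Lam q M).card : k)) *
          Phi (csnd hNq χ) (BB q d) (HH N₁ q (FF m) (cfst hNq χ)) x =
          ∑ x : ZMod q, csnd hNq χ₀ x * HH N₁ q (FF m) (cfst hNq χ) x := by
        intro x hx
        rw [← phi_const2 (p := p) hd0 J j (Lam q M).card (csnd hNq χ) (csnd hNq χ₀)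
          (HH N₁ q (FF m) (cfst hNq χ)) (fun lam hlam x => HH_frob (FF m) (cfst hNq χ) (e3 lam hlam) x) e5 hcon hx]
        ring
      refine core_abs (p := p) (N₁ := N₁) hp2 hd hd0 (hnk q hpq) hm1 hmp (hnk N₁ hpN) hb hlarge (csnd hNq χ)
        (cfst hNq χ) e4 (fun x => csnd hNq χ₀ x * ((Lam q M).card : k)) ?_ (lam := csnd hNq χ₀ 2) ?_ ?_ _ hC
      · intro x hx
        exact mul_ne_zero ((isUnit_iff_ne_zero.2 hx).map (csnd hNq χ₀)).ne_zero hA
      · exact ((isUnit_iff_ne_zero.2 h2q).map (csnd hNq χ₀)).ne_zero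
      · intro x _
        rw [map_mul]
        ring
    · intro _ hcon
      apply hZ _ rfl
      rw [map_pow, map_pow, hcon, one_pow, one_pow]

end Pool.Agent.E8helper53.PR
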