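import Pool.Agent.E8helper53.GS.Freq

/-!
# Constancy of the sums over the group of `s`-th roots of unity (general functions)
-/

set_option autoImplicit false

namespace Pool.Agent.E8helper53.PR

open Finset Polynomial Pool.Agent.Y18.GX Pool.Agent.E8helper53.GS

section
variable {k : Type*} [Field k]

lemma trace_sum {r Q : ℕ} (hr : r.Prime) (hQ : orderOf ((Q : ℕ) : ZMod r) = r - 1) {z : k} (hz : z ^ r = 1)
    (hz1 : z ≠ 1) : ∑ j ∈ range (r - 1), z ^ Q ^ j = -1 := by
  have : Fact r.Prime := ⟨hr⟩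
  have hr2 := hr.two_le
  have hinj : Set.InjOn (fun j => Q ^ j % r) (range (r - 1)) := by
    intro a ha b hb hab
    have h1 : ((Q ^ a : ℕ) : ZMod r) = ((Q ^ b : ℕ) : ZMod r) := (ZMod.natCast_eq_natCast_iff _ _ _).2 hab
    push_cast at h1
    refine pow_injOn_Iio_orderOf (x := ((Q : ℕ) : ZMod r)) ?_ ?_ h1
    · rw [hQ]
      simpa using ha
    · rw [hQ]
      simpa using hb
  have himg : (range (r - 1)).image (fun j => Q ^ j % r) = (range r).erase 0 := by
    apply Finset.eq_of_subset_of_card_le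
    · intro x hx
      obtain ⟨j, hj, rfl⟩ := mem_image.1 hx
      rw [mem_erase, mem_range]
      refine ⟨?_, Nat.mod_lt _ hr.pos⟩
      intro h
      have h1 : r ∣ Q := hr.dvd_of_dvd_pow (Nat.dvd_of_mod_eq_zero h)
      have h2 : ((Q : ℕ) : ZMod r) = 0 := (ZMod.natCast_eq_zero_iff _ _).2 h1
      rw [h2, orderOf_zero] at hQ
      omega
    · rw [card_image_of_injOn hinj, card_erase_of_mem (mem_range.2 hr.pos), card_range, card_range]
  have h1 : ∑ j ∈ range (r - 1), z ^ Q ^ j = ∑ i ∈ (range r).erase 0, z ^ i := by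
    rw [← himg, sum_image hinj]
    refine sum_congr rfl fun j _ => ?_
    conv_lhs => rw [← Nat.div_add_mod (Q ^ j) r, pow_add, pow_mul, hz, one_pow, one_mul]
  have h2 : ∑ i ∈ range r, z ^ i = 0 := by
    have h3 := geom_sum_mul z r
    rw [hz, sub_self] at h3
    exact (mul_eq_zero.1 h3).resolve_right (sub_ne_zero.2 hz1)
  rw [h1, Finset.sum_erase_eq_sub (mem_range.2 hr.pos), h2, pow_zero, zero_sub]

end

section
variable {k : Type*} [Field k] {p : ℕ} [Fact p.Prime] [CharP k p]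

/-- the sum over `B` -/
noncomputable def Phi {q : ℕ} (χ : MulChar (ZMod q) k) (B : Finset (ZMod q)) (H : ZMod q → k) (x : ZMod q) : k :=
  ∑ v ∈ B, χ v * H (x * v)

/-- the group of `s`-th roots of unity -/
noncomputable def BB (q s : ℕ) [NeZero q] : Finset (ZMod q) := by
  classical
  exact (univ : Finset (ZMod q)).filter (fun v => v ^ s = 1)

lemma mem_BB {q s : ℕ} [NeZero q] {v : ZMod q} : v ∈ BB q s ↔ v ^ s = 1 := by
  classical
  unfold BB
  rw [mem_filter]
  simp

theorem phi_const {q r s f α β : ℕ} [Fact q.Prime] (hr : r.Prime) (hs : 0 < s) (hqrs : q = r * s + 1)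
    (hQ : orderOf ((p ^ f : ℕ) : ZMod r) = r - 1)
    (hrα : r ∣ β) (hsα : s ∣ α) (hα : α % r = 1 % r) (hβ : β % s = 1 % s) (hαβ : (α + β) % (r * s) = 1 % (r * s))
    (hrk : ((r : ℕ) : k) ≠ 0)
    (χ : MulChar (ZMod q) k) (h1 : ∀ w : ZMod q, w ^ r = 1 → w ≠ 1 → χ w ≠ 1)
    (h2 : ∀ v : ZMod q, v ^ s = 1 → χ v ^ p ^ f = χ v) (H : ZMod q → k)
    (hH : ∀ x, H x ^ p ^ f = H x)
    (h0 : ∑ x : ZMod q, χ x * H x = 0) :
    ∃ C : k, ∀ x : ZMod q, x ≠ 0 → χ (x ^ β) * Phi χ (BB q s) H x = C := by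
  classical
  have hq : 0 < q := (Fact.out : q.Prime).pos
  have hr2 := hr.two_le
  have hfer : ∀ x : ZMod q, x ≠ 0 → x ^ (r * s) = 1 := by
    intro x hx
    have := ZMod.pow_card_sub_one_eq_one hx
    have hq1 : q - 1 = r * s := by omega
    rwa [hq1] at this
  have hmodpow : ∀ (x : ZMod q) (n a b : ℕ), x ^ n = 1 → a % n = b % n → x ^ a = x ^ b := by
    intro x n a b hx hab
    rw [← Nat.div_add_mod a n, ← Nat.div_add_mod b n, pow_add, pow_add, pow_mul, pow_mul, hx, one_pow, one_pow, hab]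
  have hαr : ∀ x : ZMod q, x ≠ 0 → (x ^ α) ^ r = 1 := by
    intro x hx
    obtain ⟨c, hc⟩ := hsα
    rw [hc, ← pow_mul, show s * c * r = r * s * c by ring, pow_mul, hfer x hx, one_pow]
  have hβs : ∀ x : ZMod q, x ≠ 0 → (x ^ β) ^ s = 1 := by
    intro x hx
    obtain ⟨c, hc⟩ := hrα
    rw [hc, ← pow_mul, show r * c * s = r * s * c by ring, pow_mul, hfer x hx, one_pow]
  have hdec : ∀ x : ZMod q, x ≠ 0 → x ^ α * x ^ β = x := by
    intro x hx
    rw [← pow_add, hmodpow x (r * s) (α + β) 1 (hfer x hx) hαβ, pow_one]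
  have hQj : ∀ v : ZMod q, v ^ s = 1 → ∀ j, χ v ^ (p ^ f) ^ j = χ v := by
    intro v hv j
    induction j with
    | zero => simp
    | succ j ih => rw [pow_succ, pow_mul, ih, h2 v hv]
  have hHj : ∀ (x : ZMod q) (j : ℕ), H x ^ p ^ (f * j) = H x := by
    intro x j
    rw [pow_mul]
    induction j with
    | zero => simp
    | succ j ih => rw [pow_succ, pow_mul, ih, hH x]
  -- the sums with the powers of the character
  have hj : ∀ j, ∑ x : ZMod q, χ x ^ (p ^ f) ^ j * H x = 0 := by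
    intro j
    have e1 := congrArg (iterateFrobenius k p (f * j)) h0
    rw [map_zero, map_sum] at e1
    rw [← e1]
    refine sum_congr rfl fun x _ => ?_
    rw [iterateFrobenius_def, mul_pow, hHj, pow_mul]
  set C' : k := ∑ x ∈ (univ : Finset (ZMod q)).erase 0, χ (x ^ β) * H x with hC'
  -- the sums on cosets
  have hcos : ∀ w : ZMod q, w ^ r = 1 → (r : k) * Phi χ (BB q s) H w = C' := by
    intro w hw
    have hw0 : w ≠ 0 := by
      rintro rfl
      rw [zero_pow hr.ne_zero] at hw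
      exact zero_ne_one hw
    have e1 : ∑ j ∈ range (r - 1), χ w⁻¹ ^ (p ^ f) ^ j *
        ∑ x : ZMod q, χ x ^ (p ^ f) ^ j * H x = 0 :=
      sum_eq_zero fun j _ => by rw [hj, mul_zero]
    have e2 : ∀ j, ∑ x : ZMod q, χ x ^ (p ^ f) ^ j * H x =
        ∑ x ∈ (univ : Finset (ZMod q)).erase 0, χ x ^ (p ^ f) ^ j * H x := by
      intro j
      rw [Finset.sum_erase]
      rw [MulChar.map_zero, zero_pow (pow_ne_zero _ (pow_ne_zero _ (Fact.out : p.Prime).ne_zero)), zero_mul]
    simp only [e2, Finset.mul_sum] at e1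
    rw [Finset.sum_comm] at e1
    have e3 : ∀ x ∈ (univ : Finset (ZMod q)).erase 0,
        ∑ j ∈ range (r - 1), χ w⁻¹ ^ (p ^ f) ^ j * (χ x ^ (p ^ f) ^ j * H x) =
        (if x ^ α = w then (r : k) * (χ (x ^ β) * H x) else 0) -
          χ (x ^ β) * H x := by
      intro x hx
      have hx0 := (mem_erase.1 hx).1
      have f1 : ∀ j ∈ range (r - 1), χ w⁻¹ ^ (p ^ f) ^ j * (χ x ^ (p ^ f) ^ j * H x) =
          χ (w⁻¹ * x ^ α) ^ (p ^ f) ^ j * (χ (x ^ β) * H x) := by
        intro j _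
        conv_lhs => rw [← hdec x hx0]
        rw [map_mul χ (x ^ α), map_mul χ w⁻¹, mul_pow, mul_pow, hQj _ (hβs x hx0), hdec x hx0]
        ring
      rw [sum_congr rfl f1, ← sum_mul]
      have f2 : (w⁻¹ * x ^ α) ^ r = 1 := by
        rw [mul_pow, inv_pow, hw, hαr x hx0, inv_one, mul_one]
      by_cases hxw : x ^ α = w
      · rw [if_pos hxw, hxw, inv_mul_cancel₀ hw0, map_one]
        simp only [one_pow, sum_const, card_range, nsmul_eq_mul, mul_one]
        rw [Nat.cast_sub (by omega)]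
        push_cast
        ring
      · rw [if_neg hxw, trace_sum hr hQ (by rw [← map_pow, f2, map_one]) (h1 _ f2 ?_)]
        · ring
        · intro h
          apply hxw
          have := congrArg (fun y => w * y) h
          simp only [mul_inv_cancel_left₀ hw0, mul_one] at this
          exact this
    rw [sum_congr rfl e3, sum_sub_distrib, ← hC', sub_eq_zero] at e1
    rw [← e1, ← Finset.sum_filter, ← Finset.mul_sum]
    congr 1
    unfold Phi
    refine Finset.sum_bij' (fun v _ => w * v) (fun x _ => x ^ β) ?_ ?_ ?_ ?_ ?_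
    · intro v hv
      rw [mem_BB] at hv
      have hv0 : v ≠ 0 := by
        rintro rfl
        rw [zero_pow hs.ne'] at hv
        exact zero_ne_one hv
      rw [mem_filter, mem_erase]
      refine ⟨⟨mul_ne_zero hw0 hv0, mem_univ _⟩, ?_⟩
      obtain ⟨c, hc⟩ := hsα
      rw [mul_pow, hmodpow w r α 1 hw hα, pow_one]
      rw [hc, pow_mul, hv, one_pow, mul_one]
    · intro x hx
      rw [mem_filter, mem_erase] at hx
      rw [mem_BB]
      exact hβs x hx.1.1
    · intro v hv
      rw [mem_BB] at hv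
      obtain ⟨c, hc⟩ := hrα
      rw [mul_pow, hmodpow v s β 1 hv hβ, pow_one, hc, pow_mul, hw, one_pow, one_mul]
    · intro x hx
      rw [mem_filter, mem_erase] at hx
      rw [← hx.2]
      exact hdec x hx.1.1
    · intro v hv
      rw [mem_BB] at hv
      have : (w * v) ^ β = v := by
        obtain ⟨c, hc⟩ := hrα
        rw [mul_pow, hmodpow v s β 1 hv hβ, pow_one, hc, pow_mul, hw, one_pow, one_mul]
      rw [this]
  refine ⟨C' / r, fun x hx => ?_⟩
  rw [eq_div_iff hrk, ← hcos (x ^ α) (hαr x hx)]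
  have g1 : χ (x ^ β) * Phi χ (BB q s) H x = Phi χ (BB q s) H (x ^ α) := by
    unfold Phi
    rw [Finset.mul_sum]
    have hxβ : x ^ β ≠ 0 := pow_ne_zero _ hx
    refine Finset.sum_bij' (fun v _ => x ^ β * v) (fun v _ => (x ^ β)⁻¹ * v) ?_ ?_ ?_ ?_ ?_
    · intro v hv
      rw [mem_BB] at hv ⊢
      rw [mul_pow, hβs x hx, hv, one_mul]
    · intro v hv
      rw [mem_BB] at hv ⊢
      rw [mul_pow, inv_pow, hβs x hx, hv, inv_one, one_mul]
    · intro v _
      exact inv_mul_cancel_left₀ hxβ v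
    · intro v _
      exact mul_inv_cancel_left₀ hxβ v
    · intro v _
      rw [map_mul, ← mul_assoc (x ^ α), hdec x hx]
      ring
  rw [g1]
  ring

end

end Pool.Agent.E8helper53.PR
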