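import Pool.Agent.E8helper53.PR.Pig
import Pool.Agent.E8helper53.PR.Phi

/-!
# Simultaneous approximation for a group of roots of unity containing `-1`
-/

set_option autoImplicit false

namespace Pool.Agent.E8helper53.PR

open Finset

theorem half_pigeon {q d b : ℕ} [Fact q.Prime] (hq2 : q ≠ 2) (hd : Even d) (hd0 : 0 < d) (hb : 0 < b)
    (hlt : b ^ (d / 2) < q) :
    ∃ y : ZMod q, y ≠ 0 ∧ ∃ w : ZMod q → ℤ, (∀ v ∈ BB q d, ((w v : ℤ) : ZMod q) = y * v) ∧
      (∀ v ∈ BB q d, |w v| * b < q) ∧ ((BB q d).image (fun v => (w v).natAbs)).card ≤ d / 2 := by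
  classical
  have hqp := (Fact.out : q.Prime)
  have hq : 0 < q := hqp.pos
  have hqodd : q % 2 = 1 := (hqp.eq_two_or_odd).resolve_left hq2
  set B := BB q d with hB
  have hBc : B.card ≤ d := by
    have h3 : B ⊆ (Polynomial.nthRoots d (1 : ZMod q)).toFinset := by
      intro v hv
      rw [hB, mem_BB] at hv
      rw [Multiset.mem_toFinset, Polynomial.mem_nthRoots hd0]
      exact hv
    exact (card_le_card h3).trans ((Multiset.toFinset_card_le _).trans (Polynomial.card_nthRoots d _))
  have hneg : ∀ v ∈ B, -v ∈ B := by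
    intro v hv
    rw [hB, mem_BB] at hv ⊢
    rw [hd.neg_pow, hv]
  have hne0 : ∀ v ∈ B, v ≠ 0 := by
    intro v hv
    rw [hB, mem_BB] at hv
    rintro rfl
    rw [zero_pow hd0.ne'] at hv
    exact zero_ne_one hv
  set V := B.filter (fun v => v.val * 2 < q) with hV
  have hval : ∀ v ∈ B, (-v).val = q - v.val := by
    intro v hv
    rw [ZMod.neg_val, if_neg (hne0 v hv)]
  have hnV : ∀ v ∈ B, v ∉ V → -v ∈ V := by
    intro v hv hvV
    rw [hV, mem_filter] at hvV ⊢
    refine ⟨hneg v hv, ?_⟩
    rw [hval v hv]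
    have h1 : ¬ v.val * 2 < q := fun h => hvV ⟨hv, h⟩
    have h2 := ZMod.val_lt v
    omega
  have hVc : V.card ≤ d / 2 := by
    have h1 : V.card = (V.image (fun v => -v)).card := (card_image_of_injective _ neg_injective).symm
    have h2 : Disjoint V (V.image (fun v => -v)) := by
      rw [Finset.disjoint_left]
      intro v hv hv'
      obtain ⟨v', hv'1, hv'2⟩ := mem_image.1 hv'
      rw [hV, mem_filter] at hv hv'1
      have h3 := hval v' hv'1.1
      rw [hv'2] at h3
      have h4 := ZMod.val_lt v'
      omega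
    have h3 : V ∪ V.image (fun v => -v) ⊆ B := by
      intro v hv
      rcases mem_union.1 hv with h | h
      · exact (mem_filter.1 h).1
      · obtain ⟨v', hv'1, rfl⟩ := mem_image.1 h
        exact hneg v' (mem_filter.1 hv'1).1
    have h4 := (card_le_card h3).trans hBc
    rw [card_union_of_disjoint h2, ← h1] at h4
    omega
  obtain ⟨y, hy, hw⟩ := pigeon V hb (lt_of_le_of_lt (Nat.pow_le_pow_right hb hVc) hlt)
  choose! w hw1 hw2 using hw
  refine ⟨y, hy, fun v => if v ∈ V then w v else - w (-v), ?_, ?_, ?_⟩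
  · intro v hv
    by_cases h : v ∈ V
    · simp only [if_pos h]
      exact hw1 v h
    · simp only [if_neg h]
      rw [Int.cast_neg, hw1 _ (hnV v hv h)]
      ring
  · intro v hv
    by_cases h : v ∈ V
    · simp only [if_pos h]
      exact hw2 v h
    · simp only [if_neg h]
      rw [abs_neg]
      exact hw2 _ (hnV v hv h)
  · have h1 : B.image (fun v => (if v ∈ V then w v else - w (-v)).natAbs) ⊆ V.image (fun v => (w v).natAbs) := by
      intro a ha
      obtain ⟨v, hv, rfl⟩ := mem_image.1 ha
      by_cases h : v ∈ V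
      · simp only [if_pos h]
        exact mem_image_of_mem (fun v => (w v).natAbs) h
      · simp only [if_neg h]
        rw [Int.natAbs_neg]
        exact mem_image_of_mem (fun v => (w v).natAbs) (hnV v hv h)
    exact (card_le_card h1).trans (card_image_le.trans hVc)

end Pool.Agent.E8helper53.PR
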