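import Pool.Agent.E8helper53.PR.Jump

/-!
# No linear relations between translates with a largest multiplier (with an auxiliary level)
-/

set_option autoImplicit false

namespace Pool.Agent.E8helper53.PR

open Finset Polynomial Pool.Agent.Y18.GX Pool.Agent.E8helper53.GS

section
variable {k : Type*} [Field k] {p : ℕ} [Fact p.Prime] [CharP k p]

/-- the function with jumps at the fractions with denominator `N₁` -/
noncomputable def hh (N₁ q : ℕ) (F : ℤ[X]) (c : ℕ → k) (n : ℕ) : k :=
  ∑ i ∈ range N₁, c i * aeval ((((n * N₁ + i * q) % (N₁ * q) : ℕ) : k) / ((N₁ * q : ℕ) : k)) F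

theorem no_rel' {ι : Type*} [DecidableEq ι] {N₁ q m : ℕ} (hqk : ((q : ℕ) : k) ≠ 0) (hNk : ((N₁ : ℕ) : k) ≠ 0)
    (hm1 : 1 ≤ m) (hmp : m < p)
    (I : Finset ι) (u : ι → ℕ) (d : ι → k) (c : ℕ → k) (hc : ∀ i, i.Coprime N₁ → c i ≠ 0)
    {i₀ : ι} (hi₀ : i₀ ∈ I) (hd : d i₀ ≠ 0)
    (hmax : ∀ i ∈ I, i ≠ i₀ → u i < u i₀) (hu2 : 2 ≤ u i₀) (hq1 : (m + 3) * (N₁ * u i₀) ≤ q)
    (hE : 2 * ((m + 1) * (N₁ * u i₀) ^ 2 / q) * (I.card - 1) < (N₁ * u i₀).totient) (C₀ : k)
    (hrel : ∀ t, 1 ≤ t → t < q → ∑ i ∈ I, d i * hh N₁ q (FF m) c (t * u i) = C₀) :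
    False := by
  have hp := (Fact.out : p.Prime)
  have hnk : ∀ n : ℕ, ¬ p ∣ n → ((n : ℕ) : k) ≠ 0 := fun n hn h =>
    hn ((CharP.cast_eq_zero_iff k p n).1 h)
  have hN₁0 : 0 < N₁ := by
    rcases Nat.eq_zero_or_pos N₁ with h | h
    · rw [h, Nat.cast_zero] at hNk
      exact absurd rfl hNk
    · exact h
  set us := N₁ * u i₀ with hus
  have hus2 : 2 ≤ us := by
    rw [hus]
    exact hu2.trans (Nat.le_mul_of_pos_left _ hN₁0)
  have hq0 : 0 < q := by nlinarith
  obtain ⟨j, hjlt, hjcop, hiso⟩ := exists_j I (fun i => N₁ * u i) hi₀ (E := (m + 1) * us ^ 2 / q)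
    (by omega) hE
  have hj1 : 1 ≤ j := by
    by_contra hcon
    have : j = 0 := by omega
    rw [this, Nat.coprime_zero_left] at hjcop
    omega
  -- the first `t` after the jump
  set T := (j * q + (us - 1)) / us with hT
  have hT1 : j * q ≤ T * us := by
    have h1 := Nat.div_add_mod (j * q + (us - 1)) us
    have h2 := Nat.mod_lt (j * q + (us - 1)) (by omega : 0 < us)
    rw [← hT, mul_comm] at h1
    omega
  have hT2 : T * us < j * q + us := by
    have h1 := Nat.div_mul_le_self (j * q + (us - 1)) us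
    rw [← hT] at h1
    omega
  have hTm : m + 3 ≤ T := by
    by_contra hcon
    push Not at hcon
    have h1 : T * us < (m + 3) * us := Nat.mul_lt_mul_of_pos_right hcon (by omega)
    have h2 : 1 * q ≤ j * q := Nat.mul_le_mul_right _ hj1
    omega
  have hTq : T + 1 < q := by
    by_contra hcon
    push Not at hcon
    have h1 : q * us ≤ (T + 1) * us := Nat.mul_le_mul_right _ hcon
    have h2 : (j + 1) * q ≤ us * q := Nat.mul_le_mul_right _ hjlt
    have h3 : 4 * us ≤ (m + 3) * us := Nat.mul_le_mul_right _ (by omega)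
    nlinarith
  have hdiv : ∀ i ∈ I, i ≠ i₀ → ∀ t, T - (m + 1) ≤ t → t ≤ T + 1 → t * (N₁ * u i) / q = T * (N₁ * u i) / q :=
    fun i hi hne t ht1 ht2 => no_jump hq0 hm1 (Nat.mul_lt_mul_of_pos_left (hmax i hi hne) hN₁0) hT1 hT2 (by omega)
      hjcop (hiso i hi hne) ht1 ht2
  have hdiv0 : ∀ t, T - (m + 1) ≤ t → t ≤ T - 1 → t * us / q = j - 1 := by
    intro t ht1 ht2
    apply Nat.div_eq_of_lt_le
    · have h1 : (T - (m + 1)) * us ≤ t * us := Nat.mul_le_mul_right _ ht1
      rw [Nat.sub_mul] at h1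
      rw [Nat.sub_mul, one_mul]
      have h2 : (m + 3) * us = (m + 1) * us + 2 * us := by ring
      omega
    · rw [Nat.sub_add_cancel hj1]
      have h1 : t * us ≤ (T - 1) * us := Nat.mul_le_mul_right _ ht2
      rw [Nat.sub_mul, one_mul] at h1
      have h2 : us ≤ T * us := Nat.le_mul_of_pos_left _ (by omega)
      omega
  have hdiv1 : ∀ t, T ≤ t → t ≤ T + 1 → t * us / q = j := by
    intro t ht1 ht2
    apply Nat.div_eq_of_lt_le
    · exact hT1.trans (Nat.mul_le_mul_right _ ht1)
    · have h1 : t * us ≤ (T + 1) * us := Nat.mul_le_mul_right _ ht2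
      have h3 : 4 * us ≤ (m + 3) * us := Nat.mul_le_mul_right _ (by omega)
      have h4 : (T + 1) * us = T * us + us := by ring
      have h5 : (j + 1) * q = j * q + q := by ring
      omega
  have hmod : ∀ t u' i K : ℕ, t * (N₁ * u') / q = K →
      ((((t * u') * N₁ + i * q) % (N₁ * q) : ℕ) : k) / ((N₁ * q : ℕ) : k) =
        (u' : k) / (q : ℕ) * t - (((K + i) / N₁ : ℕ) - (i : k) / (N₁ : ℕ)) := by
    intro t u' i K h
    have h0 : (t * u' * N₁ + i * q) / (N₁ * q) = (K + i) / N₁ := by
      rw [mul_comm N₁ q, ← Nat.div_div_eq_div_mul, Nat.add_mul_div_right _ _ hq0, mul_assoc, mul_comm u' N₁, h]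
    have h1 := Nat.div_add_mod (t * u' * N₁ + i * q) (N₁ * q)
    rw [h0] at h1
    have h2 := congrArg (fun x : ℕ => (x : k)) h1
    push_cast at h2 ⊢
    field_simp
    linear_combination h2
  -- the polynomial
  set f := (FF m).map (Int.castRingHom k) with hf
  have hfev : ∀ x : k, aeval x (FF m) = f.eval x := fun x => by
    rw [hf, eval_map, aeval_def]
    rfl
  have hfdeg : f.natDegree ≤ m := (natDegree_map_le).trans (FF_natDegree m)
  set b : ℕ → ℕ → k := fun K i => ((K + i) / N₁ : ℕ) - (i : k) / (N₁ : ℕ) with hb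
  set P : k[X] := ∑ x ∈ I.erase i₀, C (d x) * ∑ i ∈ range N₁, C (c i) *
        f.comp (C ((u x : k) / (q : ℕ)) * X - C (b (T * (N₁ * u x) / q) i)) +
      C (d i₀) * ∑ i ∈ range N₁, C (c i) * f.comp (C ((u i₀ : k) / (q : ℕ)) * X - C (b (j - 1) i)) - C C₀ with hP
  have hPev : ∀ t : ℕ, P.eval (t : k) = ∑ x ∈ I.erase i₀, d x * ∑ i ∈ range N₁, c i *
        f.eval ((u x : k) / (q : ℕ) * t - b (T * (N₁ * u x) / q) i) +
      d i₀ * ∑ i ∈ range N₁, c i * f.eval ((u i₀ : k) / (q : ℕ) * t - b (j - 1) i) - C₀ := by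
    intro t
    rw [hP, eval_sub, eval_add, eval_finsetSum, eval_C, eval_mul, eval_C, eval_finsetSum]
    simp only [eval_mul, eval_C, eval_finsetSum, eval_comp, eval_sub, eval_X]
  have hcomp : ∀ a b : k, (f.comp (C a * X - C b)).natDegree ≤ m := by
    intro a b
    have h1 : (C a * X - C b).natDegree ≤ 1 := by
      refine (natDegree_sub_le _ _).trans ?_
      rw [natDegree_C, max_le_iff]
      exact ⟨(natDegree_C_mul_le _ _).trans natDegree_X_le, by norm_num⟩
    calc (f.comp (C a * X - C b)).natDegree ≤ f.natDegree * (C a * X - C b).natDegree := natDegree_comp_le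
      _ ≤ m * 1 := Nat.mul_le_mul hfdeg h1
      _ = m := mul_one m
  have hPdeg : P.natDegree ≤ m := by
    rw [hP]
    refine (natDegree_sub_le _ _).trans (max_le ((natDegree_add_le _ _).trans (max_le ?_ ?_)) ?_)
    · refine natDegree_sum_le_of_forall_le _ _ fun x _ => ?_
      refine (natDegree_C_mul_le _ _).trans (natDegree_sum_le_of_forall_le _ _ fun i _ => ?_)
      exact (natDegree_C_mul_le _ _).trans (hcomp _ _)
    · refine (natDegree_C_mul_le _ _).trans (natDegree_sum_le_of_forall_le _ _ fun i _ => ?_)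
      exact (natDegree_C_mul_le _ _).trans (hcomp _ _)
    · rw [natDegree_C]
      exact Nat.zero_le _
  have hrel' : ∀ t, T - (m + 1) ≤ t → t ≤ T + 1 →
      ∑ x ∈ I.erase i₀, d x * ∑ i ∈ range N₁, c i *
        f.eval ((u x : k) / (q : ℕ) * t - b (T * (N₁ * u x) / q) i) +
      d i₀ * ∑ i ∈ range N₁, c i * f.eval ((u i₀ : k) / (q : ℕ) * t - b (t * us / q) i) = C₀ := by
    intro t ht1 ht2
    rw [← hrel t (by omega) (by omega), ← Finset.sum_erase_add _ _ hi₀]
    congr 1
    · refine Finset.sum_congr rfl fun x hx => ?_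
      rw [mem_erase] at hx
      rw [hh]
      congr 1
      refine Finset.sum_congr rfl fun i _ => ?_
      rw [hfev, hmod t (u x) i _ (hdiv x hx.2 hx.1 t ht1 ht2)]
    · rw [hh]
      congr 1
      refine Finset.sum_congr rfl fun i _ => ?_
      rw [hfev, hmod t (u i₀) i _ rfl]
  have hP0 : P = 0 := by
    refine eq_zero_of_degree_lt_of_eval_index_eq_zero (s := range (m + 1)) (f := P)
      (v := fun r : ℕ => ((T - (m + 1) + r : ℕ) : k)) ?_ ?_ ?_
    · intro a ha b hb hab
      simp only at hab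
      rw [CharP.cast_eq_iff_mod_eq k p] at hab
      have h1 := Nat.ModEq.add_left_cancel' _ hab
      have ha' := mem_range.1 ha
      have hb' := mem_range.1 hb
      rw [Nat.ModEq, Nat.mod_eq_of_lt (by omega), Nat.mod_eq_of_lt (by omega)] at h1
      exact h1
    · rw [card_range]
      exact lt_of_le_of_lt degree_le_natDegree (by exact_mod_cast Nat.lt_succ_of_le hPdeg)
    · intro r hr
      have hr' := mem_range.1 hr
      rw [hPev]
      have h1 := hrel' (T - (m + 1) + r) (by omega) (by omega)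
      rw [hdiv0 _ (by omega) (by omega)] at h1
      rw [h1, sub_self]
  -- the index with the jump
  set is := (N₁ - j % N₁) % N₁ with his
  have hisl : is < N₁ := Nat.mod_lt _ hN₁0
  have hisd : N₁ ∣ j + is := by
    have h1 : (j + is) % N₁ = 0 := by
      rw [his, Nat.add_mod_mod]
      have h2 := Nat.mod_lt j hN₁0
      have h3 : j + (N₁ - j % N₁) = N₁ * (j / N₁) + N₁ := by
        have := Nat.div_add_mod j N₁
        omega
      rw [h3, Nat.add_mod_right, Nat.mul_mod_right]
    exact Nat.dvd_of_mod_eq_zero h1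
  have hiscop : is.Coprime N₁ := by
    have h1 : j.Coprime N₁ := Nat.Coprime.coprime_dvd_right (dvd_mul_right _ _) hjcop
    have h2 : is.gcd N₁ ∣ j := by
      have h3 : is.gcd N₁ ∣ j + is := (Nat.gcd_dvd_right _ _).trans hisd
      exact (Nat.dvd_add_left (Nat.gcd_dvd_left is N₁)).1 h3
    have h4 := Nat.dvd_gcd h2 (Nat.gcd_dvd_right is N₁)
    rw [h1] at h4
    exact Nat.dvd_one.1 h4
  have hother : ∀ i ∈ range N₁, i ≠ is → (j - 1 + i) / N₁ = (j + i) / N₁ := by
    intro i hi hne
    have hnd : ¬ N₁ ∣ j + i := by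
      intro h
      apply hne
      have h1 : i ≡ is [MOD N₁] := by
        have h2 : j + i ≡ j + is [MOD N₁] :=
          ((Nat.modEq_zero_iff_dvd).2 h).trans ((Nat.modEq_zero_iff_dvd).2 hisd).symm
        exact Nat.ModEq.add_left_cancel' _ h2
      rw [Nat.ModEq, Nat.mod_eq_of_lt (mem_range.1 hi), Nat.mod_eq_of_lt hisl] at h1
      exact h1
    have h3 : j + i = (j - 1 + i) + 1 := by omega
    rw [h3, Nat.succ_div_of_not_dvd (by rw [← h3]; exact hnd)]
  have hthis : (j + is) / N₁ = (j - 1 + is) / N₁ + 1 := by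
    have h3 : j + is = (j - 1 + is) + 1 := by omega
    rw [h3, Nat.succ_div_of_dvd (by rw [← h3]; exact hisd)]
  have hX : ∀ t, T ≤ t → t ≤ T + 1 → ((u i₀ : k) / (q : ℕ) * t - (j : k) / (N₁ : ℕ)) ^ (m - 1) = 0 := by
    intro t ht1 ht2
    have h1 := hPev t
    rw [hP0, eval_zero] at h1
    have h2 := hrel' t (by omega) ht2
    rw [hdiv1 t ht1 ht2] at h2
    have h3 : d i₀ * (∑ i ∈ range N₁, c i * f.eval ((u i₀ : k) / (q : ℕ) * t - b (j - 1) i) -
        ∑ i ∈ range N₁, c i * f.eval ((u i₀ : k) / (q : ℕ) * t - b j i)) = 0 := by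
      linear_combination -h1 - h2
    rw [← Finset.sum_sub_distrib, Finset.sum_eq_single is] at h3
    · have h4 : (u i₀ : k) / (q : ℕ) * t - b j is = (u i₀ : k) / (q : ℕ) * t - (j : k) / (N₁ : ℕ) := by
        rw [hb]
        simp only
        have h5 : (((j + is) / N₁ : ℕ) : k) * (N₁ : ℕ) = j + is := by
          have h6 := Nat.div_mul_cancel hisd
          have h7 := congrArg (fun x : ℕ => (x : k)) h6
          push_cast at h7
          exact h7
        have h8 : (((j + is) / N₁ : ℕ) : k) = ((j : k) + is) / (N₁ : ℕ) := by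
          rw [eq_div_iff hNk, h5]
        rw [h8]
        ring
      have h5 : (u i₀ : k) / (q : ℕ) * t - b (j - 1) is = (u i₀ : k) / (q : ℕ) * t - (j : k) / (N₁ : ℕ) + 1 := by
        rw [← h4, hb]
        simp only
        rw [hthis]
        push_cast
        ring
      rw [h4, h5, ← mul_sub] at h3
      rcases mul_eq_zero.1 h3 with h6 | h6
      · exact absurd h6 hd
      rcases mul_eq_zero.1 h6 with h7 | h7
      · exact absurd h7 (hc _ hiscop)
      · rw [← hfev, ← hfev, FF_aeval_diff] at h7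
        rcases mul_eq_zero.1 h7 with h8 | h8
        · exfalso
          refine hnk _ ?_ h8
          intro h
          rcases (hp.dvd_mul).1 h with h | h
          · have := (hp.dvd_factorial).1 h
            omega
          · have := Nat.le_of_dvd (by omega) h
            omega
        · exact h8
    · intro i hi hne
      rw [hb]
      simp only
      rw [hother i hi hne, sub_self]
    · intro h
      exact absurd (mem_range.2 hisl) h
  rcases Nat.lt_or_ge 1 m with hm | hm
  · have h1 := pow_eq_zero_iff (n := m - 1) (by omega) |>.1 (hX T le_rfl (by omega))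
    have h2 := pow_eq_zero_iff (n := m - 1) (by omega) |>.1 (hX (T + 1) (by omega) le_rfl)
    have h3 : (u i₀ : k) / (q : ℕ) = 0 := by
      push_cast at h2
      linear_combination h2 - h1
    have h4 : (j : k) = 0 := by
      rw [h3, zero_mul, zero_sub, neg_eq_zero] at h1
      rcases div_eq_zero_iff.1 h1 with h | h
      · exact h
      · exact absurd h hNk
    have h5 : (us : k) = 0 := by
      rw [hus]
      push_cast
      rcases div_eq_zero_iff.1 h3 with h | h
      · rw [h, mul_zero]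
      · exact absurd h hqk
    rw [CharP.cast_eq_zero_iff k p] at h4 h5
    have h6 := Nat.dvd_gcd h4 h5
    rw [hjcop] at h6
    exact hp.one_lt.ne' (Nat.dvd_one.1 h6)
  · have h1 := hX T le_rfl (by omega)
    have h2 : m - 1 = 0 := by omega
    rw [h2, pow_zero] at h1
    exact one_ne_zero h1

end

end Pool.Agent.E8helper53.PR
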