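import Pool.Agent.E8helper53.PR.Phi
import Pool.Agent.E8helper53.PR.Jump2

/-!
# The sums over residue classes modulo `q`
-/

set_option autoImplicit false

namespace Pool.Agent.E8helper53.PR

open Finset Polynomial Pool.Agent.Y18.GX Pool.Agent.E8helper53.GS

section
variable {k : Type*} [Field k]

lemma class_bij {N₁ q : ℕ} (hN : 0 < N₁) (hq : 0 < q) (c : ZMod N₁ → k) (g : ℕ → k) (n : ℕ) :
    ∑ x ∈ (range (N₁ * q)).filter (fun x : ℕ => (x : ZMod q) = ((n * N₁ : ℕ) : ZMod q)), c (x : ZMod N₁) * g x =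
      ∑ i ∈ range N₁, c ((i * q : ℕ) : ZMod N₁) * g ((n * N₁ + i * q) % (N₁ * q)) := by
  symm
  refine Finset.sum_bij (fun i _ => (n * N₁ + i * q) % (N₁ * q)) ?_ ?_ ?_ ?_
  · intro i hi
    rw [mem_filter, mem_range]
    refine ⟨Nat.mod_lt _ (Nat.mul_pos hN hq), ?_⟩
    rw [ZMod.natCast_eq_natCast_iff', Nat.mod_mul_left_mod, Nat.add_mul_mod_self_right]
  · intro i hi i' hi' h
    have h1 : n * N₁ + i * q ≡ n * N₁ + i' * q [MOD N₁ * q] := h
    have h2 := Nat.ModEq.add_left_cancel' _ h1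
    have h3 : i ≡ i' [MOD N₁] := Nat.ModEq.mul_right_cancel' hq.ne' h2
    rw [Nat.ModEq, Nat.mod_eq_of_lt (mem_range.1 hi), Nat.mod_eq_of_lt (mem_range.1 hi')] at h3
    exact h3
  · intro x hx
    rw [mem_filter, mem_range] at hx
    have hN' : (0 : ℤ) < N₁ := by exact_mod_cast hN
    obtain ⟨l, hl⟩ : ∃ l : ℤ, (x : ℤ) = n * N₁ + l * q := by
      have h1 : ((x : ℕ) : ZMod q) = ((n * N₁ : ℕ) : ZMod q) := hx.2
      rw [ZMod.natCast_eq_natCast_iff] at h1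
      obtain ⟨l, hl⟩ := (Nat.modEq_iff_dvd).1 h1.symm
      exact ⟨l, by push_cast at hl; linear_combination hl⟩
    have hl1 := Int.emod_lt_of_pos l hN'
    have hl2 := Int.emod_nonneg l hN'.ne'
    refine ⟨(l % N₁).toNat, ?_, ?_⟩
    · rw [mem_range]
      omega
    · have h3 : n * N₁ + (l % N₁).toNat * q ≡ x [MOD N₁ * q] := by
        rw [← Int.natCast_modEq_iff]
        push_cast
        rw [Int.toNat_of_nonneg hl2, hl]
        apply Int.ModEq.add_left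
        exact Int.ModEq.mul_right' (Int.mod_modEq l N₁)
      rw [h3, Nat.mod_eq_of_lt hx.1]
  · intro i hi
    congr 2
    rw [ZMod.natCast_eq_natCast_iff', Nat.mod_mul_right_mod, Nat.mul_add_mod_self_right]

/-- the sum over a residue class modulo `q` -/
noncomputable def HH (N₁ q : ℕ) (F : ℤ[X]) (χ₁ : MulChar (ZMod N₁) k) (z : ZMod q) : k :=
  ∑ x ∈ (range (N₁ * q)).filter (fun x : ℕ => (x : ZMod q) = z),
    χ₁ (x : ZMod N₁) * aeval ((x : k) / ((N₁ * q : ℕ) : k)) F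

lemma HH_sum {N₁ q : ℕ} [NeZero q] (F : ℤ[X]) (χ₁ : MulChar (ZMod N₁) k) (χ₂ : MulChar (ZMod q) k) :
    ∑ z : ZMod q, χ₂ z * HH N₁ q F χ₁ z = ∑ x ∈ range (N₁ * q), (χ₁ (x : ZMod N₁) * χ₂ (x : ZMod q)) *
      aeval ((x : k) / ((N₁ * q : ℕ) : k)) F := by
  rw [← Finset.sum_fiberwise (range (N₁ * q)) (fun x : ℕ => (x : ZMod q))]
  refine sum_congr rfl fun z _ => ?_
  rw [HH, Finset.mul_sum]
  refine sum_congr rfl fun x hx => ?_
  rw [← (mem_filter.1 hx).2]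
  ring

lemma HH_nat {N₁ q : ℕ} (hN : 0 < N₁) (hq : 0 < q) (F : ℤ[X]) (χ₁ : MulChar (ZMod N₁) k) (n : ℕ) :
    HH N₁ q F χ₁ ((n * N₁ : ℕ) : ZMod q) = χ₁ (q : ZMod N₁) * hh N₁ q F (fun i => χ₁ (i : ZMod N₁)) n := by
  rw [HH, class_bij hN hq (fun x => χ₁ x) (fun x => aeval ((x : k) / ((N₁ * q : ℕ) : k)) F), hh, Finset.mul_sum]
  refine sum_congr rfl fun i _ => ?_
  rw [Nat.cast_mul i q, map_mul]
  ring

lemma HH_refl {N₁ q m : ℕ} (hN : 0 < N₁) (hq : 0 < q) (F : ℤ[X]) (χ₁ : MulChar (ZMod N₁) k)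
    (hNk : ((N₁ * q : ℕ) : k) ≠ 0) (c : k) (hF : ∀ x : k, aeval (1 - x) F = (-1) ^ m * aeval x F + c)
    {z : ZMod q} (hz : z ≠ 0) :
    HH N₁ q F χ₁ (-z) = χ₁ (-1) * ((-1) ^ m * HH N₁ q F χ₁ z +
      c * ∑ x ∈ (range (N₁ * q)).filter (fun x : ℕ => (x : ZMod q) = z), χ₁ (x : ZMod N₁)) := by
  have hpos : ∀ x : ℕ, ∀ z : ZMod q, z ≠ 0 → (x : ZMod q) = z → 0 < x := by
    intro x z hz hx
    rcases Nat.eq_zero_or_pos x with h | h
    · rw [h, Nat.cast_zero] at hx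
      exact absurd hx.symm hz
    · exact h
  have hmem : ∀ x : ℕ, ∀ z : ZMod q, z ≠ 0 → x ∈ (range (N₁ * q)).filter (fun x : ℕ => (x : ZMod q) = z) →
      N₁ * q - x ∈ (range (N₁ * q)).filter (fun x : ℕ => (x : ZMod q) = -z) := by
    intro x z hz hx
    rw [mem_filter, mem_range] at hx ⊢
    have h1 := hpos x z hz hx.2
    refine ⟨by omega, ?_⟩
    rw [Nat.cast_sub hx.1.le, hx.2]
    push_cast
    rw [ZMod.natCast_self]
    ring
  rw [HH, HH, Finset.mul_sum, Finset.mul_sum, ← Finset.sum_add_distrib, Finset.mul_sum]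
  refine Finset.sum_bij' (fun x _ => N₁ * q - x) (fun x _ => N₁ * q - x) ?_ ?_ ?_ ?_ ?_
  · intro x hx
    have := hmem x (-z) (neg_ne_zero.2 hz) hx
    rwa [neg_neg] at this
  · intro x hx
    exact hmem x z hz hx
  · intro x hx
    have := mem_range.1 (mem_filter.1 hx).1
    omega
  · intro x hx
    have := mem_range.1 (mem_filter.1 hx).1
    omega
  · intro x hx
    have hx' := mem_range.1 (mem_filter.1 hx).1
    have h1 : ((N₁ * q - x : ℕ) : k) / ((N₁ * q : ℕ) : k) = 1 - (x : k) / ((N₁ * q : ℕ) : k) := by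
      rw [Nat.cast_sub hx'.le, sub_div, div_self hNk]
    have h2 : χ₁ (x : ZMod N₁) = χ₁ (-1) * χ₁ ((N₁ * q - x : ℕ) : ZMod N₁) := by
      rw [← map_mul]
      congr 1
      rw [Nat.cast_sub hx'.le]
      push_cast
      rw [ZMod.natCast_self]
      ring
    have h3 : (x : k) / ((N₁ * q : ℕ) : k) = 1 - ((N₁ * q - x : ℕ) : k) / ((N₁ * q : ℕ) : k) := by
      rw [h1]
      ring
    rw [h2, h3, hF]
    ring

end

section
variable {k : Type*} [Field k] {p : ℕ} [Fact p.Prime] [CharP k p]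

lemma HH_frob {N₁ q f : ℕ} (F : ℤ[X]) (χ₁ : MulChar (ZMod N₁) k) (hχ : ∀ x, χ₁ x ^ p ^ f = χ₁ x) (z : ZMod q) :
    HH N₁ q F χ₁ z ^ p ^ f = HH N₁ q F χ₁ z := by
  have h1 : HH N₁ q F χ₁ z ^ p ^ f = iterateFrobenius k p f (HH N₁ q F χ₁ z) := by
    rw [iterateFrobenius_def]
  rw [h1]
  unfold HH
  rw [map_sum]
  refine sum_congr rfl fun x _ => ?_
  rw [iterateFrobenius_def, mul_pow, hχ, frob_fix]

/-- the value at a small multiple -/
lemma HH_small {N₁ q m : ℕ} [Fact q.Prime] (hN : 0 < N₁) (hNq : ((N₁ : ℕ) : ZMod q) ≠ 0) (χ₁ : MulChar (ZMod N₁) k)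
    (hNk : ((N₁ * q : ℕ) : k) ≠ 0) {ε : k} (hε : χ₁ (-1) * (-1) ^ m = ε)
    {t : ℕ} (ht : ((t : ℕ) : ZMod q) ≠ 0) (w : ℤ) (hw : ((w : ℤ) : ZMod q) ≠ 0) :
    HH N₁ q (FF m) χ₁ ((t : ZMod q) * (N₁ : ZMod q) * (w : ZMod q)) =
      χ₁ (q : ZMod N₁) * ((if 0 ≤ w then 1 else ε) *
        hh N₁ q (FF m) (fun i => χ₁ (i : ZMod N₁)) (t * w.natAbs)) +
      (if 0 ≤ w then 0 else χ₁ (-1) * ((((FF m).eval 1 : ℤ) : k) * (∑ i ∈ range N₁, χ₁ ((i * q : ℕ) : ZMod N₁)))) := by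
  have hq : 0 < q := (Fact.out : q.Prime).pos
  by_cases h : 0 ≤ w
  · rw [if_pos h, if_pos h, one_mul, add_zero, ← HH_nat hN hq]
    congr 1
    obtain ⟨n, rfl⟩ := Int.eq_ofNat_of_zero_le h
    rw [Int.natAbs_natCast, Int.cast_natCast]
    push_cast
    ring
  · rw [if_neg h, if_neg h]
    have h1 : (t : ZMod q) * (N₁ : ZMod q) * (w : ZMod q) = -((t * w.natAbs * N₁ : ℕ) : ZMod q) := by
      obtain ⟨n, hn⟩ := Int.eq_ofNat_of_zero_le (show 0 ≤ -w by omega)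
      have h2 : w = -(n : ℤ) := by omega
      rw [h2, Int.natAbs_neg, Int.natAbs_natCast, Int.cast_neg, Int.cast_natCast]
      push_cast
      ring
    have h3 : ((t * w.natAbs * N₁ : ℕ) : ZMod q) ≠ 0 := by
      rw [← neg_ne_zero, ← h1]
      exact mul_ne_zero (mul_ne_zero ht hNq) hw
    have h4 := class_bij hN hq (fun x => χ₁ x) (fun _ => (1 : k)) (t * w.natAbs)
    simp only [mul_one] at h4
    rw [h1, HH_refl hN hq (FF m) χ₁ hNk _ (FF_aeval_refl m) h3, h4, HH_nat hN hq, ← hε]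
    ring

end

end Pool.Agent.E8helper53.PR
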