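import Pool.Agent.E8helper53.PR.Cnt
import Pool.Agent.E8helper53.GS.Freq

/-!
# No linear relations between translates with a largest multiplier
-/

set_option autoImplicit false

namespace Pool.Agent.E8helper53.PR

open Finset Polynomial Pool.Agent.Y18.GX Pool.Agent.E8helper53.GS

/-- the integral parts do not jump near an isolated fraction -/
lemma no_jump {q m us T j u : ℕ} (hq : 0 < q) (hm1 : 1 ≤ m) (hu : u < us) (hT1 : j * q ≤ T * us) (hT2 : T * us < j * q + us)
    (hTm : m + 1 ≤ T) (hcop : j.Coprime us)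
    (hiso : ∀ k : ℤ, k * us - j * u ≠ 0 → (((m + 1) * us ^ 2 / q : ℕ) : ℤ) < |k * (us : ℤ) - j * u|)
    {t : ℕ} (ht1 : T - (m + 1) ≤ t) (ht2 : t ≤ T + 1) : t * u / q = T * u / q := by
  by_contra hne
  -- a multiple of `q` in between
  obtain ⟨κ, h1, h2⟩ : ∃ κ : ℕ, (T - (m + 1)) * u < κ * q ∧ κ * q ≤ (T + 1) * u := by
    rcases lt_or_gt_of_ne hne with h | h
    · refine ⟨T * u / q, ?_, ?_⟩
      · have e1 : t * u < (T * u / q) * q := by
          rw [← Nat.div_lt_iff_lt_mul hq]
          exact h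
        exact lt_of_le_of_lt (Nat.mul_le_mul_right _ ht1) e1
      · exact (Nat.div_mul_le_self _ _).trans (Nat.mul_le_mul_right _ (by omega))
    · refine ⟨t * u / q, ?_, ?_⟩
      · have e1 : T * u < (t * u / q) * q := by
          rw [← Nat.div_lt_iff_lt_mul hq]
          exact h
        exact lt_of_le_of_lt (Nat.mul_le_mul_right _ (by omega)) e1
      · exact (Nat.div_mul_le_self _ _).trans (Nat.mul_le_mul_right _ ht2)
  have hu0 : 0 < u := by
    rcases Nat.eq_zero_or_pos u with h | h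
    · rw [h, mul_zero] at h1 h2
      omega
    · exact h
  have hne0 : (κ : ℤ) * us - j * u ≠ 0 := by
    intro h
    have e1 : κ * us = j * u := by
      have : (κ : ℤ) * us = j * u := by linarith
      exact_mod_cast this
    have e2 : us ∣ u := hcop.symm.dvd_of_dvd_mul_left ⟨κ, by rw [← e1, mul_comm]⟩
    have := Nat.le_of_dvd hu0 e2
    omega
  have h3 := hiso κ hne0
  have h1' : ((T : ℤ) - (m + 1)) * u < κ * q := by
    have : (((T - (m + 1) : ℕ)) : ℤ) * u < κ * q := by exact_mod_cast h1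
    rwa [Nat.cast_sub hTm, Nat.cast_add, Nat.cast_one] at this
  have h2' : (κ : ℤ) * q ≤ (T + 1) * u := by exact_mod_cast h2
  have hT1' : (j : ℤ) * q ≤ T * us := by exact_mod_cast hT1
  have hT2' : (T : ℤ) * us < j * q + us := by exact_mod_cast hT2
  have hus0 : (0 : ℤ) < us := by exact_mod_cast (lt_of_le_of_lt (Nat.zero_le _) hu)
  have hu0' : (0 : ℤ) < u := by exact_mod_cast hu0
  have hm1' : (1 : ℤ) ≤ m := by exact_mod_cast hm1
  have h4 : |(κ : ℤ) * us - j * u| * q ≤ (m + 1) * (us * u) := by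
    have hqa : |(q : ℤ)| = q := abs_of_pos (by exact_mod_cast hq)
    have hqb : |(κ : ℤ) * us - j * u| * q = |((κ : ℤ) * us - j * u) * q| := by rw [abs_mul, hqa]
    rw [hqb, abs_le]
    constructor
    · have e1 : ((T : ℤ) - (m + 1)) * u * us ≤ κ * q * us := mul_le_mul_of_nonneg_right h1'.le hus0.le
      have e2 : (j : ℤ) * q * u ≤ T * us * u := mul_le_mul_of_nonneg_right hT1' hu0'.le
      nlinarith
    · have e1 : (κ : ℤ) * q * us ≤ (T + 1) * u * us := mul_le_mul_of_nonneg_right h2' hus0.le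
      have e2 : (T : ℤ) * us * u ≤ (j * q + us) * u := mul_le_mul_of_nonneg_right hT2'.le hu0'.le
      have e3 : (0 : ℤ) ≤ (m - 1) * (us * u) := mul_nonneg (by linarith) (mul_pos hus0 hu0').le
      nlinarith
  have h5 : |(κ : ℤ) * us - j * u| = (((κ : ℤ) * us - j * u).natAbs : ℤ) := (Int.natCast_natAbs _).symm
  rw [h5] at h3 h4
  have h6 : ((κ : ℤ) * us - j * u).natAbs * q ≤ (m + 1) * (us * u) := by exact_mod_cast h4
  have h7 : ((κ : ℤ) * us - j * u).natAbs * q ≤ (m + 1) * us ^ 2 := by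
    refine h6.trans (Nat.mul_le_mul_left _ ?_)
    rw [pow_two]
    exact Nat.mul_le_mul_left _ hu.le
  have h8 : ((κ : ℤ) * us - j * u).natAbs ≤ (m + 1) * us ^ 2 / q := by
    rw [Nat.le_div_iff_mul_le hq]
    exact h7
  have h9 : (((κ : ℤ) * us - j * u).natAbs : ℤ) ≤ (((m + 1) * us ^ 2 / q : ℕ) : ℤ) := by exact_mod_cast h8
  omega

section
variable {k : Type*} [Field k] {p : ℕ} [Fact p.Prime] [CharP k p]

theorem no_rel {ι : Type*} [DecidableEq ι] {q m : ℕ} (hqk : ((q : ℕ) : k) ≠ 0) (hm1 : 1 ≤ m) (hmp : m < p)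
    (I : Finset ι) (u : ι → ℕ) (d : ι → k) {i₀ : ι} (hi₀ : i₀ ∈ I) (hd : d i₀ ≠ 0)
    (hmax : ∀ i ∈ I, i ≠ i₀ → u i < u i₀) (hu2 : 2 ≤ u i₀) (hq1 : (m + 3) * u i₀ ≤ q)
    (hE : 2 * ((m + 1) * u i₀ ^ 2 / q) * (I.card - 1) < (u i₀).totient) (C₀ : k)
    (hrel : ∀ t, 1 ≤ t → t < q → ∑ i ∈ I, d i * aeval ((((t * u i) % q : ℕ) : k) / (q : ℕ)) (FF m) = C₀) :
    False := by
  have hp := (Fact.out : p.Prime)
  have hnk : ∀ n : ℕ, ¬ p ∣ n → ((n : ℕ) : k) ≠ 0 := fun n hn h =>
    hn ((CharP.cast_eq_zero_iff k p n).1 h)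
  set us := u i₀ with hus
  have hq0 : 0 < q := by nlinarith
  obtain ⟨j, hjlt, hjcop, hiso⟩ := exists_j I u hi₀ (E := (m + 1) * us ^ 2 / q) (by omega) hE
  have hj1 : 1 ≤ j := by
    by_contra hcon
    have : j = 0 := by omega
    rw [this, Nat.coprime_zero_left] at hjcop
    omega
  -- the first `t` after the jump
  set T := (j * q + (us - 1)) / us with hT
  have hT1 : j * q ≤ T * us := by
    have h1 := Nat.div_add_mod (j * q + (us - 1)) us
    have h2 := Nat.mod_lt (j * q + (us - 1)) (by omega : 0 < us)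
    rw [← hT, mul_comm] at h1
    omega
  have hT2 : T * us < j * q + us := by
    have h1 := Nat.div_mul_le_self (j * q + (us - 1)) us
    rw [← hT] at h1
    omega
  have hTm : m + 3 ≤ T := by
    by_contra hcon
    push Not at hcon
    have h1 : T * us < (m + 3) * us := Nat.mul_lt_mul_of_pos_right hcon (by omega)
    have h2 : 1 * q ≤ j * q := Nat.mul_le_mul_right _ hj1
    omega
  have hTq : T + 1 < q := by
    by_contra hcon
    push Not at hcon
    have h1 : q * us ≤ (T + 1) * us := Nat.mul_le_mul_right _ hcon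
    have h2 : (j + 1) * q ≤ us * q := Nat.mul_le_mul_right _ hjlt
    have h3 : 4 * us ≤ (m + 3) * us := Nat.mul_le_mul_right _ (by omega)
    nlinarith
  have hdiv : ∀ i ∈ I, i ≠ i₀ → ∀ t, T - (m + 1) ≤ t → t ≤ T + 1 → t * u i / q = T * u i / q :=
    fun i hi hne t ht1 ht2 => no_jump hq0 hm1 (hmax i hi hne) hT1 hT2 (by omega) hjcop (hiso i hi hne) ht1 ht2
  have hdiv0 : ∀ t, T - (m + 1) ≤ t → t ≤ T - 1 → t * us / q = j - 1 := by
    intro t ht1 ht2
    apply Nat.div_eq_of_lt_le
    · have h1 : (T - (m + 1)) * us ≤ t * us := Nat.mul_le_mul_right _ ht1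
      rw [Nat.sub_mul] at h1
      rw [Nat.sub_mul, one_mul]
      have h2 : (m + 3) * us = (m + 1) * us + 2 * us := by ring
      omega
    · rw [Nat.sub_add_cancel hj1]
      have h1 : t * us ≤ (T - 1) * us := Nat.mul_le_mul_right _ ht2
      rw [Nat.sub_mul, one_mul] at h1
      have h2 : us ≤ T * us := Nat.le_mul_of_pos_left _ (by omega)
      omega
  have hdiv1 : ∀ t, T ≤ t → t ≤ T + 1 → t * us / q = j := by
    intro t ht1 ht2
    apply Nat.div_eq_of_lt_le
    · exact hT1.trans (Nat.mul_le_mul_right _ ht1)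
    · have h1 : t * us ≤ (T + 1) * us := Nat.mul_le_mul_right _ ht2
      have h3 : 4 * us ≤ (m + 3) * us := Nat.mul_le_mul_right _ (by omega)
      have h4 : (T + 1) * us = T * us + us := by ring
      have h5 : (j + 1) * q = j * q + q := by ring
      omega
  have hmod : ∀ t u' K : ℕ, t * u' / q = K → (((t * u') % q : ℕ) : k) / (q : ℕ) = (u' : k) / (q : ℕ) * t - K := by
    intro t u' K h
    have h1 := Nat.div_add_mod (t * u') q
    rw [h] at h1
    have h2 := congrArg (fun x : ℕ => (x : k)) h1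
    push_cast at h2
    field_simp
    linear_combination h2
  -- the polynomial
  set f := (FF m).map (Int.castRingHom k) with hf
  have hfev : ∀ x : k, aeval x (FF m) = f.eval x := fun x => by
    rw [hf, eval_map, aeval_def]
    rfl
  have hfdeg : f.natDegree ≤ m := (natDegree_map_le).trans (FF_natDegree m)
  set P : k[X] := ∑ i ∈ I.erase i₀, C (d i) * f.comp (C ((u i : k) / (q : ℕ)) * X - C ((T * u i / q : ℕ) : k)) +
      C (d i₀) * f.comp (C ((us : k) / (q : ℕ)) * X - C ((j - 1 : ℕ) : k)) - C C₀ with hP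
  have hPev : ∀ t : ℕ, P.eval (t : k) = ∑ i ∈ I.erase i₀, d i * f.eval ((u i : k) / (q : ℕ) * t - ((T * u i / q : ℕ) : k)) +
      d i₀ * f.eval ((us : k) / (q : ℕ) * t - ((j - 1 : ℕ) : k)) - C₀ := by
    intro t
    rw [hP, eval_sub, eval_add, eval_finsetSum, eval_C, eval_mul, eval_C, eval_comp]
    simp only [eval_mul, eval_C, eval_comp, eval_sub, eval_X]
  have hcomp : ∀ a b : k, (f.comp (C a * X - C b)).natDegree ≤ m := by
    intro a b
    have h1 : (C a * X - C b).natDegree ≤ 1 := by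
      refine (natDegree_sub_le _ _).trans ?_
      rw [natDegree_C, max_le_iff]
      exact ⟨(natDegree_C_mul_le _ _).trans natDegree_X_le, by norm_num⟩
    calc (f.comp (C a * X - C b)).natDegree ≤ f.natDegree * (C a * X - C b).natDegree := natDegree_comp_le
      _ ≤ m * 1 := Nat.mul_le_mul hfdeg h1
      _ = m := mul_one m
  have hPdeg : P.natDegree ≤ m := by
    rw [hP]
    refine (natDegree_sub_le _ _).trans (max_le ((natDegree_add_le _ _).trans (max_le ?_ ?_)) ?_)
    · refine natDegree_sum_le_of_forall_le _ _ fun i _ => ?_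
      exact (natDegree_C_mul_le _ _).trans (hcomp _ _)
    · exact (natDegree_C_mul_le _ _).trans (hcomp _ _)
    · rw [natDegree_C]
      exact Nat.zero_le _
  have hrel' : ∀ t, T - (m + 1) ≤ t → t ≤ T + 1 →
      ∑ i ∈ I.erase i₀, d i * f.eval ((u i : k) / (q : ℕ) * t - ((T * u i / q : ℕ) : k)) +
      d i₀ * f.eval ((us : k) / (q : ℕ) * t - ((t * us / q : ℕ) : k)) = C₀ := by
    intro t ht1 ht2
    rw [← hrel t (by omega) (by omega), ← Finset.sum_erase_add _ _ hi₀]
    congr 1
    · refine Finset.sum_congr rfl fun i hi => ?_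
      rw [mem_erase] at hi
      rw [hfev, hmod t (u i) _ (hdiv i hi.2 hi.1 t ht1 ht2)]
    · rw [hfev, hmod t us _ rfl]
  have hP0 : P = 0 := by
    refine eq_zero_of_degree_lt_of_eval_index_eq_zero (s := range (m + 1)) (f := P)
      (v := fun r : ℕ => ((T - (m + 1) + r : ℕ) : k)) ?_ ?_ ?_
    · intro a ha b hb hab
      simp only at hab
      rw [CharP.cast_eq_iff_mod_eq k p] at hab
      have h1 := Nat.ModEq.add_left_cancel' _ hab
      have ha' := mem_range.1 ha
      have hb' := mem_range.1 hb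
      rw [Nat.ModEq, Nat.mod_eq_of_lt (by omega), Nat.mod_eq_of_lt (by omega)] at h1
      exact h1
    · rw [card_range]
      exact lt_of_le_of_lt degree_le_natDegree (by exact_mod_cast Nat.lt_succ_of_le hPdeg)
    · intro r hr
      have hr' := mem_range.1 hr
      rw [hPev]
      have h1 := hrel' (T - (m + 1) + r) (by omega) (by omega)
      rw [hdiv0 _ (by omega) (by omega)] at h1
      rw [h1, sub_self]
  have hX : ∀ t, T ≤ t → t ≤ T + 1 → ((us : k) / (q : ℕ) * t - j) ^ (m - 1) = 0 := by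
    intro t ht1 ht2
    have h1 := hPev t
    rw [hP0, eval_zero] at h1
    have h2 := hrel' t (by omega) ht2
    rw [hdiv1 t ht1 ht2] at h2
    have h3 : d i₀ * (f.eval ((us : k) / (q : ℕ) * t - j + 1) - f.eval ((us : k) / (q : ℕ) * t - j)) = 0 := by
      have h4 : (us : k) / (q : ℕ) * t - ((j - 1 : ℕ) : k) = (us : k) / (q : ℕ) * t - j + 1 := by
        rw [Nat.cast_sub hj1]
        push_cast
        ring
      rw [h4] at h1
      linear_combination -h1 - h2
    rcases mul_eq_zero.1 h3 with h4 | h4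
    · exact absurd h4 hd
    · rw [← hfev, ← hfev, FF_aeval_diff] at h4
      rcases mul_eq_zero.1 h4 with h5 | h5
      · exfalso
        refine hnk _ ?_ h5
        intro h
        rcases (hp.dvd_mul).1 h with h | h
        · have := (hp.dvd_factorial).1 h
          omega
        · have := Nat.le_of_dvd (by omega) h
          omega
      · exact h5
  rcases Nat.lt_or_ge 1 m with hm | hm
  · have h1 := pow_eq_zero_iff (n := m - 1) (by omega) |>.1 (hX T le_rfl (by omega))
    have h2 := pow_eq_zero_iff (n := m - 1) (by omega) |>.1 (hX (T + 1) (by omega) le_rfl)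
    have h3 : (us : k) / (q : ℕ) = 0 := by
      push_cast at h2
      linear_combination h2 - h1
    have h4 : (j : k) = 0 := by
      rw [h3, zero_mul, zero_sub, neg_eq_zero] at h1
      exact h1
    have h5 : (us : k) = 0 := by
      rcases div_eq_zero_iff.1 h3 with h | h
      · exact h
      · exact absurd h hqk
    rw [CharP.cast_eq_zero_iff k p] at h4 h5
    have h6 := Nat.dvd_gcd h4 h5
    rw [hjcop] at h6
    exact hp.one_lt.ne' (Nat.dvd_one.1 h6)
  · have h1 := hX T le_rfl (by omega)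
    have h2 : m - 1 = 0 := by omega
    rw [h2, pow_zero] at h1
    exact one_ne_zero h1

end

end Pool.Agent.E8helper53.PR
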