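import Pool.Agent.E8helper53.PR.GenU

/-!
# Characters of order `M n` for which `p` does not split in `ℚ(ζ_(Mn))/ℚ(ζ_n)`
-/

set_option autoImplicit false

namespace Pool.Agent.E8helper53.PR

open Finset

section
variable {q M : ℕ} [Fact q.Prime]

lemma Lam_powers {μ : DirichletCharacter ℂ q} (hM0 : 0 < M) (hμ : orderOf μ = M) {lam : DirichletCharacter ℂ q}
    (h : lam ^ M = 1) : ∃ i < M, lam = μ ^ i := by
  classical
  have hcyc : IsCyclic (DirichletCharacter ℂ q) := by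
    obtain ⟨e⟩ := MulChar.mulEquiv_units (ZMod q) ℂ
    exact isCyclic_of_surjective e.symm.toMonoidHom e.symm.surjective
  have hfin : Fintype (DirichletCharacter ℂ q) := Fintype.ofFinite _
  have h1 : ((univ : Finset (DirichletCharacter ℂ q)).filter (fun a => a ^ M = 1)).card ≤ M :=
    IsCyclic.card_pow_eq_one_le hM0
  have h2 : (range M).image (fun i => μ ^ i) ⊆ (univ : Finset (DirichletCharacter ℂ q)).filter (fun a => a ^ M = 1) := by
    intro x hx
    obtain ⟨i, -, rfl⟩ := mem_image.1 hx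
    rw [mem_filter]
    refine ⟨mem_univ _, ?_⟩
    rw [← pow_mul, mul_comm, pow_mul, ← hμ, pow_orderOf_eq_one, one_pow]
  have h3 : ((range M).image (fun i => μ ^ i)).card = M := by
    rw [card_image_of_injOn, card_range]
    intro a ha b hb hab
    refine pow_injOn_Iio_orderOf (x := μ) ?_ ?_ hab
    · rw [hμ]
      simpa using ha
    · rw [hμ]
      simpa using hb
  have h4 := Finset.eq_of_subset_of_card_le h2 (by rw [h3]; exact h1)
  have h5 : lam ∈ (univ : Finset (DirichletCharacter ℂ q)).filter (fun a => a ^ M = 1) :=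
    mem_filter.2 ⟨mem_univ _, h⟩
  rw [← h4] at h5
  obtain ⟨i, hi, rfl⟩ := mem_image.1 h5
  exact ⟨i, mem_range.1 hi, rfl⟩

end

theorem general_E {p : ℕ} (hp : p.Prime) (hp2 : p ≠ 2) {N₁ q d M n m : ℕ} (hpN : ¬ p ∣ N₁) (hq : q.Prime)
    (hqd : q = M * d + 1) (hd : Even d) (hpM : ¬ p ∣ M)
    (hlarge : (4 * p * d * N₁ * (Nat.log 2 (N₁ * q) + 1)) ^ (d / 2) < q) (hm1 : 1 ≤ m) (hmp : m < p)
    (ψ : DirichletCharacter ℂ (N₁ * q)) (hpar : ψ (-1) = (-1) ^ m) (hord : orderOf ψ = M * n)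
    (μ : DirichletCharacter ℂ q) (hμ : ψ ^ n = DirichletCharacter.changeLevel (dvd_mul_left q N₁) μ)
    (hM : M.Prime ∨ ∀ ℓ : ℕ, ℓ.Prime → ℓ ∣ M → ℓ ∣ n)
    (hpow : ∀ u : ℕ, u.Coprime (M * n) → u ≡ 1 [MOD n] → ∃ j : ℕ, p ^ j ≡ u [MOD M * n]) :
    Pool.Agent.Y18.GX.IsUnitAt p ((1 - ψ (p : ZMod (N₁ * q)) * (p : ℂ) ^ (m - 1)) *
      (((N₁ * q : ℕ) : ℂ) ^ (m - 1) * ∑ a ∈ range (N₁ * q), ψ (a : ZMod (N₁ * q)) *
        (((Polynomial.bernoulli m).eval ((a : ℚ) / ((N₁ * q : ℕ) : ℚ)) : ℚ) : ℂ)) / m) := by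
  have : Fact q.Prime := ⟨hq⟩
  have hN₁ : 0 < N₁ := by
    rcases Nat.eq_zero_or_pos N₁ with h | h
    · rw [h] at hpN
      exact absurd (dvd_zero p) hpN
    · exact h
  have hq2 := hq.two_le
  have hM0 : 0 < M := by
    rcases Nat.eq_zero_or_pos M with h | h
    · rw [h, zero_mul] at hqd
      omega
    · exact h
  have : NeZero (N₁ * q) := ⟨(Nat.mul_pos hN₁ hq.pos).ne'⟩
  have hord0 : 0 < M * n := by
    rw [← hord]
    exact orderOf_pos ψ
  have hn0 : 0 < n := Nat.pos_of_mul_pos_left hord0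
  have hμo : orderOf μ = M := by
    have h1 : orderOf (DirichletCharacter.changeLevel (dvd_mul_left q N₁) μ) = orderOf μ :=
      orderOf_injective _ (DirichletCharacter.changeLevel_injective (dvd_mul_left q N₁)) μ
    rw [← h1, ← hμ, orderOf_pow_of_dvd hn0.ne' (by rw [hord]; exact dvd_mul_left n M), hord,
      Nat.mul_div_cancel _ hn0]
  have hψu : ∀ a b : ℕ, a ≡ b [MOD M * n] → ψ ^ a = ψ ^ b := by
    intro a b hab
    rw [← hord] at hab
    exact pow_eq_pow_iff_modEq.2 hab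
  have htw : ∀ i, ψ * DirichletCharacter.changeLevel (dvd_mul_left q N₁) (μ ^ i) = ψ ^ (1 + n * i) := by
    intro i
    rw [map_pow, ← hμ, ← pow_mul, pow_add, pow_one]
  have hgood : ∀ i, (1 + n * i).Coprime (M * n) →
      ∃ j : ℕ, ψ * DirichletCharacter.changeLevel (dvd_mul_left q N₁) (μ ^ i) = ψ ^ p ^ j := by
    intro i hi
    obtain ⟨j, hj⟩ := hpow _ hi (by
      rw [Nat.ModEq, Nat.add_mul_mod_self_left])
    exact ⟨j, by rw [htw, hψu _ _ hj]⟩
  have hcopn : ∀ i, (1 + n * i).Coprime n := by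
    intro i
    rw [Nat.coprime_add_mul_left_left]
    exact Nat.coprime_one_left n
  rcases hM with hM | hM
  · -- `M` prime
    by_cases hMn : M ∣ n
    · refine general_U hp hp2 hpN hq hqd hd hpM hlarge hm1 hmp ψ hpar 1 fun lam hlam _ => ?_
      obtain ⟨i, -, rfl⟩ := Lam_powers hM0 hμo hlam
      refine hgood i (Nat.Coprime.mul_right ?_ (hcopn i))
      exact Nat.Coprime.coprime_dvd_right hMn (hcopn i)
    · have hcop : n.Coprime M := ((Nat.Prime.coprime_iff_not_dvd hM).2 hMn).symm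
      -- the exceptional exponent
      obtain ⟨i₀, hi₀⟩ : ∃ i₀ : ℕ, 1 + n * i₀ ≡ 0 [MOD M] := by
        obtain ⟨x, hx⟩ := Nat.exists_mul_mod_eq_one_of_coprime hcop hM.one_lt
        refine ⟨x * (M - 1), ?_⟩
        have h1 : n * (x * (M - 1)) ≡ M - 1 [MOD M] := by
          have h2 : n * x ≡ 1 [MOD M] := by
            rw [Nat.ModEq, hx.2, Nat.mod_eq_of_lt hM.one_lt]
          have h3 := h2.mul_right (M - 1)
          rw [one_mul, mul_assoc] at h3
          exact h3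
        have h2 := h1.add_left 1
        rw [Nat.add_sub_cancel' hM.one_lt.le] at h2
        exact h2.trans (by rw [Nat.ModEq, Nat.mod_self, Nat.zero_mod])
      refine general_U hp hp2 hpN hq hqd hd hpM hlarge hm1 hmp ψ hpar (μ ^ i₀) fun lam hlam hne => ?_
      obtain ⟨i, -, rfl⟩ := Lam_powers hM0 hμo hlam
      refine hgood i (Nat.Coprime.mul_right ?_ (hcopn i))
      apply Nat.Coprime.symm
      rw [Nat.Prime.coprime_iff_not_dvd hM]
      intro h
      apply hne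
      have h1 : 1 + n * i ≡ 1 + n * i₀ [MOD M] := ((Nat.modEq_zero_iff_dvd).2 h).trans hi₀.symm
      have h2 : n * i ≡ n * i₀ [MOD M] := Nat.ModEq.add_left_cancel' 1 h1
      have h3 : i ≡ i₀ [MOD M] := Nat.ModEq.cancel_left_of_coprime (by rw [Nat.gcd_comm]; exact hcop) h2
      rw [← hμo] at h3
      exact pow_eq_pow_iff_modEq.2 h3
  · refine general_U hp hp2 hpN hq hqd hd hpM hlarge hm1 hmp ψ hpar 1 fun lam hlam _ => ?_
    obtain ⟨i, -, rfl⟩ := Lam_powers hM0 hμo hlam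
    refine hgood i (Nat.Coprime.mul_right ?_ (hcopn i))
    rw [Nat.coprime_iff_gcd_eq_one]
    by_contra hne
    obtain ⟨ℓ, hℓ, hℓd⟩ := Nat.exists_prime_and_dvd hne
    have h1 : ℓ ∣ 1 + n * i := hℓd.trans (Nat.gcd_dvd_left _ _)
    have h2 : ℓ ∣ n := hM ℓ hℓ (hℓd.trans (Nat.gcd_dvd_right _ _))
    have h3 := Nat.dvd_gcd h1 h2
    rw [hcopn i] at h3
    exact hℓ.one_lt.ne' (Nat.dvd_one.1 h3)

end Pool.Agent.E8helper53.PR
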