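import Mathlib

/-!
# Simultaneous approximation modulo a prime number
-/

set_option autoImplicit false

namespace Pool.Agent.E8helper53.PR

open Finset

/-- simultaneous approximation -/
theorem pigeon {q : ℕ} [Fact q.Prime] (V : Finset (ZMod q)) {b : ℕ} (hb : 0 < b) (hlt : b ^ V.card < q) :
    ∃ y : ZMod q, y ≠ 0 ∧ ∀ v ∈ V, ∃ w : ℤ, (w : ZMod q) = y * v ∧ |w| * b < q := by
  have hq : 0 < q := (Fact.out : q.Prime).pos
  have : NeZero q := ⟨hq.ne'⟩
  -- boxes
  have hbox : ∀ x : ZMod q, x.val * b / q < b := fun x => by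
    rw [Nat.div_lt_iff_lt_mul hq, mul_comm b q]
    exact Nat.mul_lt_mul_of_pos_right (ZMod.val_lt x) hb
  obtain ⟨x, y, hne, hxy⟩ := Fintype.exists_ne_map_eq_of_card_lt
    (fun (x : ZMod q) (v : V) => (⟨(x * v).val * b / q, hbox _⟩ : Fin b)) (by
      rw [Fintype.card_fun, Fintype.card_fin, Fintype.card_coe, ZMod.card]
      exact hlt)
  refine ⟨x - y, sub_ne_zero.2 hne, fun v hv => ⟨((x * v).val : ℤ) - (y * v).val, ?_, ?_⟩⟩
  · push_cast
    rw [ZMod.natCast_zmod_val, ZMod.natCast_zmod_val]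
    ring
  · have h1 : (x * v).val * b / q = (y * v).val * b / q := by
      have := congrFun hxy ⟨v, hv⟩
      exact congrArg Fin.val this
    have h2 := Nat.div_add_mod ((x * v).val * b) q
    have h3 := Nat.div_add_mod ((y * v).val * b) q
    have h4 := Nat.mod_lt ((x * v).val * b) hq
    have h5 := Nat.mod_lt ((y * v).val * b) hq
    rw [h1] at h2
    have h6 : |((x * v).val : ℤ) - (y * v).val| * b = |(((x * v).val * b : ℕ) : ℤ) - ((y * v).val * b : ℕ)| := by
      push_cast
      rw [← sub_mul, abs_mul, Nat.abs_cast]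
    rw [h6, abs_lt]
    constructor <;> omega

end Pool.Agent.E8helper53.PR
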