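import Pool.Agent.E8helper53.PR.Hfun
import Pool.Agent.E8helper53.PR.Half

/-!
# The core of the theorem on the levels `N₁ q`
-/

set_option autoImplicit false

namespace Pool.Agent.E8helper53.PR

open Finset Polynomial Pool.Agent.Y18.GX Pool.Agent.E8helper53.GS

section
variable {k : Type*} [Field k] {p : ℕ} [Fact p.Prime] [CharP k p]

theorem core_abs {N₁ q d m b : ℕ} [Fact q.Prime] (hp2 : p ≠ 2) (hd : Even d) (hd0 : 0 < d)
    (hqk : ((q : ℕ) : k) ≠ 0) (hm1 : 1 ≤ m) (hmp : m < p)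
    (hNk : ((N₁ : ℕ) : k) ≠ 0)
    (hb : b = 4 * p * d * N₁ * (Nat.log 2 (N₁ * q) + 1)) (hlarge : b ^ (d / 2) < q)
    (χ : MulChar (ZMod q) k)
    (χ₁ : MulChar (ZMod N₁) k) (hpar : χ₁ (-1) * χ (-1) = (-1) ^ m)
    (g : ZMod q → k) (hg0 : ∀ x, x ≠ 0 → g x ≠ 0) {lam : k} (hlam0 : lam ≠ 0)
    (hg2 : ∀ x, x ≠ 0 → g (2 * x) = lam * g x) (C : k)
    (hC : ∀ x : ZMod q, x ≠ 0 → g x * Phi χ (BB q d) (HH N₁ q (FF m) χ₁) x = C) : False := by
  classical
  have hp := (Fact.out : p.Prime)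
  have hp1 := hp.two_le
  have hqp := (Fact.out : q.Prime)
  have hq : 0 < q := hqp.pos
  have hN₁ : 0 < N₁ := by
    rcases Nat.eq_zero_or_pos N₁ with h | h
    · rw [h, Nat.cast_zero] at hNk
      exact absurd rfl hNk
    · exact h
  have hNqk : ((N₁ * q : ℕ) : k) ≠ 0 := by
    push_cast
    exact mul_ne_zero hNk hqk
  -- the sign
  set ε := χ (-1) with hε
  have hεε : ε * ε = 1 := by
    rw [hε, ← map_mul]
    norm_num
  have hεε' : χ₁ (-1) * (-1) ^ m = ε := by
    have e1 : χ₁ (-1) * χ₁ (-1) = 1 := by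
      rw [← map_mul]
      norm_num
    rw [← hpar, ← mul_assoc, e1, one_mul]
  set B := BB q d with hB
  have hd2 : 2 ≤ d := by
    obtain ⟨c, hc⟩ := hd
    omega
  have hb0 : 0 < b := by
    rw [hb]
    positivity
  have hb8 : 8 * p * N₁ ≤ b := by
    rw [hb]
    have e1 : 2 * 1 ≤ d * (Nat.log 2 (N₁ * q) + 1) := Nat.mul_le_mul hd2 (Nat.succ_pos _)
    calc 8 * p * N₁ = 4 * p * N₁ * (2 * 1) := by ring
      _ ≤ 4 * p * N₁ * (d * (Nat.log 2 (N₁ * q) + 1)) := Nat.mul_le_mul_left _ e1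
      _ = 4 * p * d * N₁ * (Nat.log 2 (N₁ * q) + 1) := by ring
  have hN₁b : N₁ ≤ b := (Nat.le_mul_of_pos_left _ (Nat.mul_pos (by norm_num) hp.pos)).trans hb8
  have hbq : b < q := by
    refine lt_of_le_of_lt ?_ hlarge
    calc b = b ^ 1 := (pow_one b).symm
      _ ≤ b ^ (d / 2) := Nat.pow_le_pow_right hb0 (by omega)
  have hN₁q : ((N₁ : ℕ) : ZMod q) ≠ 0 := by
    intro h
    rw [ZMod.natCast_eq_zero_iff] at h
    have := Nat.le_of_dvd hN₁ h
    omega
  have hq16 : 16 < q := by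
    have h8p : 16 ≤ 8 * p * N₁ := by nlinarith
    omega
  obtain ⟨y, hy0, w, hw1, hw2, hcardA⟩ := half_pigeon (by omega : q ≠ 2) hd hd0 hb0 hlarge
  rw [← hB] at hw1 hw2 hcardA
  have hBne : ∀ v ∈ B, v ≠ 0 := by
    intro v hv
    rw [hB, mem_BB] at hv
    rintro rfl
    rw [zero_pow hd0.ne'] at hv
    exact zero_ne_one hv
  have hw0 : ∀ v ∈ B, ((w v : ℤ) : ZMod q) ≠ 0 := fun v hv => by
    rw [hw1 v hv]
    exact mul_ne_zero hy0 (hBne v hv)
  have hwn0 : ∀ v ∈ B, w v ≠ 0 := fun v hv h => hw0 v hv (by rw [h, Int.cast_zero])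
  have hwb : ∀ v ∈ B, (w v).natAbs * b < q := by
    intro v hv
    have h3 := hw2 v hv
    rw [← Int.natCast_natAbs] at h3
    exact_mod_cast h3
  -- the terms of the relation
  set sg : ZMod q → k := fun v => χ v * (χ₁ (q : ZMod N₁) * (if 0 ≤ w v then 1 else ε)) with hsg
  set cc : ZMod q → k := fun v => χ v * (if 0 ≤ w v then 0 else
    χ₁ (-1) * ((((FF m).eval 1 : ℤ) : k) * (∑ i ∈ range N₁, χ₁ ((i * q : ℕ) : ZMod N₁)))) with hcc
  set G : ℕ → k := fun n => hh N₁ q (FF m) (fun i => χ₁ (i : ZMod N₁)) n with hG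
  have hPhi : ∀ t : ℕ, ((t : ℕ) : ZMod q) ≠ 0 → Phi χ B (HH N₁ q (FF m) χ₁) (t * N₁ * y) =
      ∑ v ∈ B, sg v * G (t * (w v).natAbs) + ∑ v ∈ B, cc v := by
    intro t ht
    unfold Phi
    rw [← sum_add_distrib]
    refine sum_congr rfl fun v hv => ?_
    rw [mul_assoc ((t : ZMod q) * N₁) y v, ← hw1 v hv,
      HH_small hN₁ hN₁q χ₁ hNqk hεε' ht (w v) (hw0 v hv), hsg, hcc, hG]
    simp only
    ring
  have hqN₁ : χ₁ (q : ZMod N₁) ≠ 0 := by
    apply MulChar.apply_ne_zero_iff.2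
    rw [ZMod.isUnit_iff_coprime]
    refine (Nat.Prime.coprime_iff_not_dvd hqp).2 fun h => ?_
    have := Nat.le_of_dvd hN₁ h
    omega
  set 𝒜 := B.image (fun v => (w v).natAbs) with h𝒜
  set D : ℕ → k := fun a => ∑ v ∈ B with (w v).natAbs = a, sg v with hD
  have hfib : ∀ H : ℕ → k, ∑ v ∈ B, sg v * H (w v).natAbs = ∑ a ∈ 𝒜, D a * H a := by
    intro H
    rw [← Finset.sum_fiberwise_of_maps_to (g := fun v => (w v).natAbs) (t := 𝒜)
      (fun v hv => mem_image_of_mem _ hv)]
    refine sum_congr rfl fun a _ => ?_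
    rw [hD]
    simp only
    rw [sum_mul]
    refine sum_congr rfl fun v hv => ?_
    rw [(mem_filter.1 hv).2]
  -- the coefficients
  have h2k : ((2 : ℕ) : k) ≠ 0 := by
    intro h
    rw [CharP.cast_eq_zero_iff k p] at h
    exact hp2 ((Nat.prime_dvd_prime_iff_eq hp Nat.prime_two).1 h)
  have hD0 : ∀ a ∈ 𝒜, D a ≠ 0 := by
    intro a ha
    obtain ⟨v₀, hv₀, rfl⟩ := mem_image.1 ha
    have hcase : ∀ v ∈ B, (w v).natAbs = (w v₀).natAbs → v = v₀ ∨ v = -v₀ := by
      intro v hv hvv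
      rcases Int.natAbs_eq_natAbs_iff.1 hvv with h | h
      · left
        have h3 := congrArg (fun z : ℤ => (z : ZMod q)) h
        simp only [hw1 v hv, hw1 v₀ hv₀] at h3
        exact mul_left_cancel₀ hy0 h3
      · right
        have h3 := congrArg (fun z : ℤ => (z : ZMod q)) h
        simp only [Int.cast_neg, hw1 v hv, hw1 v₀ hv₀] at h3
        rw [← mul_neg] at h3
        exact mul_left_cancel₀ hy0 h3
    have hsame : ∀ v ∈ B, (w v).natAbs = (w v₀).natAbs → sg v = sg v₀ := by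
      intro v hv hvv
      rcases Int.natAbs_eq_natAbs_iff.1 hvv with h | h
      · have h3 := congrArg (fun z : ℤ => (z : ZMod q)) h
        simp only [hw1 v hv, hw1 v₀ hv₀] at h3
        rw [mul_left_cancel₀ hy0 h3]
      · have h3 := congrArg (fun z : ℤ => (z : ZMod q)) h
        simp only [Int.cast_neg, hw1 v hv, hw1 v₀ hv₀] at h3
        rw [← mul_neg] at h3
        have h4 := mul_left_cancel₀ hy0 h3
        have h5 : χ v = ε * χ v₀ := by
          rw [h4, hε, ← map_mul]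
          congr 1
          ring
        rw [hsg]
        simp only
        rw [h5]
        have hne := hwn0 v₀ hv₀
        rcases lt_or_gt_of_ne hne with h6 | h6
        · rw [if_pos (by omega), if_neg (by omega)]
          ring
        · rw [if_neg (by omega), if_pos (by omega)]
          linear_combination (χ v₀) * χ₁ (q : ZMod N₁) * hεε
    have hDv : D (w v₀).natAbs = ((B.filter (fun v => (w v).natAbs = (w v₀).natAbs)).card : k) * sg v₀ := by
      rw [hD]
      simp only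
      rw [sum_congr rfl (fun v hv => hsame v (mem_filter.1 hv).1 (mem_filter.1 hv).2), sum_const, nsmul_eq_mul]
    rw [hDv]
    apply mul_ne_zero
    · have h3 : (B.filter (fun v => (w v).natAbs = (w v₀).natAbs)).card ≤ 2 := by
        refine (card_le_card (t := {v₀, -v₀}) ?_).trans card_le_two
        intro v hv
        rw [mem_insert, mem_singleton]
        exact hcase v (mem_filter.1 hv).1 (mem_filter.1 hv).2
      have h4 : 0 < (B.filter (fun v => (w v).natAbs = (w v₀).natAbs)).card :=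
        card_pos.2 ⟨v₀, mem_filter.2 ⟨hv₀, rfl⟩⟩
      have h5 : (B.filter (fun v => (w v).natAbs = (w v₀).natAbs)).card = 1 ∨
        (B.filter (fun v => (w v).natAbs = (w v₀).natAbs)).card = 2 := by omega
      rcases h5 with h5 | h5
      · rw [h5, Nat.cast_one]
        exact one_ne_zero
      · rw [h5]
        exact h2k
    · rw [hsg]
      simp only
      apply mul_ne_zero
      · exact MulChar.apply_ne_zero_iff.2 (isUnit_iff_ne_zero.2 (hBne v₀ hv₀))
      · apply mul_ne_zero hqN₁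
        split_ifs
        · exact one_ne_zero
        · exact left_ne_zero_of_mul_eq_one hεε
  -- the largest element
  have h𝒜ne : 𝒜.Nonempty := by
    refine ⟨(w 1).natAbs, mem_image_of_mem (fun v => (w v).natAbs) ?_⟩
    rw [hB, mem_BB, one_pow]
  set M := 𝒜.max' h𝒜ne with hM
  have hMmem : M ∈ 𝒜 := 𝒜.max'_mem _
  have hMb : M * b < q := by
    obtain ⟨v, hv, hvM⟩ := mem_image.1 hMmem
    rw [← hvM]
    exact hwb v hv
  have hM0 : 0 < M := by
    obtain ⟨v, hv, hvM⟩ := mem_image.1 hMmem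
    rw [← hvM]
    exact Int.natAbs_pos.2 (hwn0 v hv)
  have hMq : M * (8 * p * N₁) < q := lt_of_le_of_lt (Nat.mul_le_mul_left _ hb8) hMb
  have h8p : 16 ≤ 8 * p * N₁ := by nlinarith
  have h2q : (2 : ZMod q) ≠ 0 := by
    intro h
    have e1 : ((2 : ℕ) : ZMod q) = 0 := by exact_mod_cast h
    rw [ZMod.natCast_eq_zero_iff] at e1
    have := Nat.le_of_dvd (by norm_num) e1
    omega
  set dd : ℕ × Bool → k := fun z => if z.2 = true then lam * D z.1 else - D z.1 with hdd
  set u : ℕ × Bool → ℕ := fun z => if z.2 = true then 2 * z.1 else z.1 with hu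
  have hcardI : (𝒜 ×ˢ (univ : Finset Bool)).card ≤ d := by
    rw [card_product, card_univ, Fintype.card_bool]
    omega
  refine no_rel' (p := p) hqk hNk hm1 hmp (𝒜 ×ˢ (univ : Finset Bool)) u dd (fun i => χ₁ (i : ZMod N₁))
    (fun i hi => MulChar.apply_ne_zero_iff.2 ((ZMod.isUnit_iff_coprime i N₁).2 hi)) (i₀ := (M, true)) ?_ ?_ ?_ ?_ ?_ ?_
    ((∑ v ∈ B, cc v) * (1 - lam)) ?_
  · rw [mem_product]
    exact ⟨hMmem, mem_univ _⟩
  · simp only [hdd, if_true]
    exact mul_ne_zero hlam0 (hD0 M hMmem)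
  · rintro ⟨a, c⟩ hi hne
    rw [mem_product] at hi
    have haM : a ≤ M := 𝒜.le_max' a hi.1
    cases c with
    | false =>
      simp only [hu, if_true, Bool.false_eq_true, if_false]
      omega
    | true =>
      simp only [hu, if_true]
      have : a ≠ M := fun h => hne (by rw [h])
      omega
  · simp only [hu, if_true]
    omega
  · simp only [hu, if_true]
    have e1 : (m + 3) * (N₁ * (2 * M)) = M * ((2 * (m + 3)) * N₁) := by ring
    have e2 : M * ((2 * (m + 3)) * N₁) ≤ M * (8 * p * N₁) :=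
      Nat.mul_le_mul_left _ (Nat.mul_le_mul_right _ (by omega))
    omega
  · simp only [hu, if_true]
    set U := N₁ * (2 * M) with hU
    set L := Nat.log 2 (N₁ * q) + 1 with hL
    set E := (m + 1) * U ^ 2 / q with hE
    by_contra hcon
    push Not at hcon
    have hU0 : 0 < U := Nat.mul_pos hN₁ (by omega)
    have hUq : U ≤ N₁ * q := Nat.mul_le_mul_left _ (by nlinarith)
    have g1 := totient_lower U (by omega)
    have g2 : Nat.log 2 U + 1 ≤ L := Nat.succ_le_succ (Nat.log_mono_right hUq)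
    have g3 : E * q ≤ (m + 1) * U ^ 2 := Nat.div_mul_le_self _ _
    have g4 : U ≤ 2 * E * d * L := by
      calc U ≤ U.totient * (Nat.log 2 U + 1) := g1
        _ ≤ (2 * E * ((𝒜 ×ˢ (univ : Finset Bool)).card - 1)) * L := Nat.mul_le_mul hcon g2
        _ ≤ 2 * E * d * L := Nat.mul_le_mul_right _ (Nat.mul_le_mul_left _ ((Nat.sub_le _ _).trans hcardI))
    have g5 : U * q ≤ U * (b * M) := by
      calc U * q ≤ 2 * E * d * L * q := Nat.mul_le_mul_right _ g4
        _ = 2 * d * L * (E * q) := by ring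
        _ ≤ 2 * d * L * ((m + 1) * U ^ 2) := Nat.mul_le_mul_left _ g3
        _ ≤ 2 * d * L * (p * U ^ 2) := Nat.mul_le_mul_left _ (Nat.mul_le_mul_right _ (by omega))
        _ = U * (b * M) := by
          rw [hb, hU]
          ring
    have g6 := Nat.le_of_mul_le_mul_left g5 hU0
    rw [mul_comm] at g6
    omega
  · intro t ht1 htq
    have ht0 : ((t : ℕ) : ZMod q) ≠ 0 := by
      intro h
      rw [ZMod.natCast_eq_zero_iff] at h
      have := Nat.le_of_dvd (by omega) h
      omega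
    have ht20 : ((2 * t : ℕ) : ZMod q) ≠ 0 := by
      push_cast
      exact mul_ne_zero h2q ht0
    have hX0 : (t : ZMod q) * N₁ * y ≠ 0 := mul_ne_zero (mul_ne_zero ht0 hN₁q) hy0
    have hX20 : ((2 * t : ℕ) : ZMod q) * N₁ * y ≠ 0 := mul_ne_zero (mul_ne_zero ht20 hN₁q) hy0
    have e1 := hC _ hX0
    have e2 := hC _ hX20
    have e3 : g (((2 * t : ℕ) : ZMod q) * N₁ * y) = lam * g ((t : ZMod q) * N₁ * y) := by
      rw [← hg2 _ hX0]
      congr 1
      push_cast
      ring
    rw [e3, ← e1] at e2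
    have e4 : g ((t : ZMod q) * N₁ * y) ≠ 0 := hg0 _ hX0
    have e5 : lam * Phi χ B (HH N₁ q (FF m) χ₁) (((2 * t : ℕ) : ZMod q) * N₁ * y) =
        Phi χ B (HH N₁ q (FF m) χ₁) ((t : ZMod q) * N₁ * y) := by
      apply mul_left_cancel₀ e4
      linear_combination e2
    rw [hPhi _ ht20, hPhi _ ht0] at e5
    have f1 := hfib (fun a => G (2 * t * a))
    have f2 := hfib (fun a => G (t * a))
    rw [f1, f2] at e5
    rw [sum_product]
    simp only [Fintype.sum_bool, hdd, hu, if_true, Bool.false_eq_true, if_false]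
    rw [sum_add_distrib]
    have f3 : ∑ a ∈ 𝒜, lam * D a * hh N₁ q (FF m) (fun i => χ₁ (i : ZMod N₁)) (t * (2 * a)) =
        lam * ∑ a ∈ 𝒜, D a * G (2 * t * a) := by
      rw [Finset.mul_sum]
      refine sum_congr rfl fun a _ => ?_
      rw [hG]
      simp only
      rw [show t * (2 * a) = 2 * t * a by ring]
      ring
    have f4 : ∑ a ∈ 𝒜, -D a * hh N₁ q (FF m) (fun i => χ₁ (i : ZMod N₁)) (t * a) =
        - ∑ a ∈ 𝒜, D a * G (t * a) := by
      rw [← Finset.sum_neg_distrib]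
      refine sum_congr rfl fun a _ => ?_
      rw [hG]
      simp only
      ring
    rw [f3, f4]
    linear_combination e5

end

end Pool.Agent.E8helper53.PR
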